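import Pool.Agent.W_fb9763_h19.Defs
import Pool.Agent.W_fb9763_h88.Cover

set_option autoImplicit false

namespace FB9

open Finset

/-- FOURIER STEP. `v e ∈ (ZMod p)^n`, and `a e ≠ 0` are such that for every `xi ≠ 0` there is `e` with
`xi ⬝ v e = a e`. Then every `y` is a subset sum. Proof: let `ψ : AddChar (ZMod p) ℂ` be the standard
primitive character (`ZMod.stdAddChar`), and for `u : ι → Bool` or for subsets `A` of `ι` the weight
`c A = ∏_{e ∉ A} (-(ψ (a e)))` . Then for every `xi`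
`∏_e (ψ (xi ⬝ v e) - ψ (a e)) = ∑_A c A * ψ (xi ⬝ ∑_{e ∈ A} v e)` (`Finset.prod_sub`/`prod_add`). Multiply
by `ψ (- xi ⬝ y)` and sum over all `xi`: on the left only `xi = 0` survives and gives
`∏_e (1 - ψ (a e)) ≠ 0` (primitive character, `a e ≠ 0`); on the right
`∑_xi ψ (xi ⬝ (∑_{A} v - y))` vanishes unless `∑_{e ∈ A} v e = y`
(product over the coordinates, `AddChar.sum_mulShift`). So some `A` has `∑_{e ∈ A} v e = y`. -/
theorem fourier {p : ℕ} [Fact p.Prime] {n : ℕ} {ι : Type*} [Fintype ι] [DecidableEq ι]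
    (v : ι → (Fin n → ZMod p)) (a : ι → ZMod p) (ha : ∀ e, a e ≠ 0)
    (hcov : ∀ xi : Fin n → ZMod p, xi ≠ 0 → ∃ e, ∑ i, xi i * v e i = a e)
    (y : Fin n → ZMod p) : ∃ A : Finset ι, ∑ e ∈ A, v e = y :=
  Pool.Agent.FB9763h88.subset_sum_of_cov v a ha hcov y

end FB9
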