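import Pool.Agent.W_fb9763_h19.Defs

set_option autoImplicit false

namespace FB9

/-- Parameters exist. `x = 1 - 1/(2p)`, `de = 1/(2p)`: `(p-2) ≤ (1 - 1/(2p))^2 (p-1)` because
`(1-1/(2p))^2 ≥ 1 - 1/p` and `(1-1/p)(p-1) ≥ p - 2`. Then `x < 1`, so by continuity there are
`rho > 1` close to `1` and `lam` large with `(x rho^4) (rho^4 (1+lam)/lam)^6 ≤ 1` (for instance
`rho = 1 + 1/(200 p)`, `lam = 200 p`, or choose `u > 1` with `x u^100 ≤ 1` and `rho = u`,
`lam = 1/(u-1)`, so that `(1+lam)/lam = u`). Finally let `t → ∞`: `t1, k1, k2, k3` hold for all large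
`t` (`k2`: `exp` is continuous at `0` and `rho > 1`; use `Real.exp y ≤ 1/(1-y)` or a log bound:
it is enough that `2 (lam/t)/(b-1)^2 ≤ Real.log rho`). -/
theorem exists_par (p : ℕ) (hp : p.Prime) :
    ∃ x de rho lam t : ℝ, Par p x de rho lam t := by
  have hp2 : (2 : ℝ) ≤ p := by exact_mod_cast hp.two_le
  have hp0 : (0 : ℝ) < p := by linarith
  set de : ℝ := 1 / (2 * p) with hde
  have hde0 : 0 < de := by positivity
  have hde1 : de ≤ 1 / 4 := by
    rw [hde]
    exact one_div_le_one_div_of_le (by norm_num) (by linarith)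
  have hdep : de * p = 1 / 2 := by
    rw [hde]; field_simp
  set x : ℝ := 1 - de with hx
  have hx0 : 0 < x := by linarith
  have hx1 : x < 1 := by linarith
  set u : ℝ := (1 / x) ^ (((34 : ℕ) : ℝ)⁻¹) with hu
  have hinv : 1 < 1 / x := by
    rw [lt_div_iff₀ hx0]; linarith
  have hu1 : 1 < u := Real.one_lt_rpow hinv (by norm_num)
  have hu34 : u ^ 34 = 1 / x := Real.rpow_inv_natCast_pow (by positivity) (by norm_num)
  have hu0 : 0 < u := by linarith
  set lam : ℝ := 1 / (u - 1) with hlam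
  have hum : 0 < u - 1 := by linarith
  have hlam0 : 0 < lam := by positivity
  have hb : u ^ 4 * (1 + lam) / lam = u ^ 5 := by
    rw [hlam]; field_simp; ring
  have hb1 : 1 < u ^ 5 := one_lt_pow₀ hu1 (by norm_num)
  have hb0 : 0 < u ^ 5 - 1 := by linarith
  have hlog : 0 < Real.log u := Real.log_pos hu1
  set t : ℝ := (p : ℝ) ^ 2 * (1 + lam) + 2 * lam / (u ^ 5 - 1) +
    2 * lam / ((u ^ 5 - 1) ^ 2 * Real.log u) + lam / de with ht
  have a1 : 0 < (p : ℝ) ^ 2 * (1 + lam) := by positivity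
  have a2 : 0 < 2 * lam / (u ^ 5 - 1) := by positivity
  have a3 : 0 < 2 * lam / ((u ^ 5 - 1) ^ 2 * Real.log u) := by positivity
  have a4 : 0 < lam / de := by positivity
  have ht0 : 0 < t := by positivity
  have b2 : lam / t ≤ (u ^ 5 - 1) / 2 := by
    rw [div_le_iff₀ ht0]
    have h1 : 2 * lam / (u ^ 5 - 1) ≤ t := by linarith
    rw [div_le_iff₀ hb0] at h1
    linarith
  have b3 : 2 * (lam / t) / (u ^ 5 - 1) ^ 2 ≤ Real.log u := by
    have h1 : 2 * lam / ((u ^ 5 - 1) ^ 2 * Real.log u) ≤ t := by linarith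
    rw [div_le_iff₀ (by positivity)] at h1
    rw [div_le_iff₀ (by positivity), ← mul_div_assoc, div_le_iff₀ ht0]
    linarith
  have b4 : lam / t ≤ de := by
    rw [div_le_iff₀ ht0]
    have h1 : lam / de ≤ t := by linarith
    rw [div_le_iff₀ hde0] at h1
    linarith
  refine ⟨x, de, u, lam, t, hx0, hx1, hde0, by linarith, ?_, hu1, hlam0, by linarith, ?_, ?_, ?_, b4⟩
  · rw [hx]
    have h1 : (1 - de) * (1 - de) * ((p : ℝ) - 1) =
        ((p : ℝ) - 1) - 2 * (de * p) + 2 * de + de ^ 2 * (p - 1) := by ring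
    rw [h1, hdep]
    have h2 : 0 ≤ de ^ 2 * ((p : ℝ) - 1) := mul_nonneg (sq_nonneg _) (by linarith)
    linarith
  · rw [hb]
    have h1 : x * u ^ 4 * (u ^ 5) ^ 6 = x * u ^ 34 := by ring
    rw [h1, hu34, mul_one_div_cancel hx0.ne']
  · rw [hb]; exact b2
  · rw [hb]
    calc Real.exp (2 * (lam / t) / (u ^ 5 - 1) ^ 2) ≤ Real.exp (Real.log u) := Real.exp_le_exp.2 b3
      _ = u := Real.exp_log hu0

end FB9
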