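import Pool.Agent.W_fb9763_h19.CovT
import Pool.Agent.W_fb9763_h19.Fourier
import Pool.Agent.W_fb9763_h19.Param
import Pool.Agent.W_fb9763_h88.Ind

set_option autoImplicit false

namespace FB9

open Finset

/-- The code of a family of vectors. -/
def codeMap {p : ℕ} {n : ℕ} {ι : Type*} (v : ι → (Fin n → ZMod p)) :
    (Fin n → ZMod p) →ₗ[ZMod p] (ι → ZMod p) where
  toFun xi := fun e => ∑ i, xi i * v e i
  map_add' a b := by
    funext e
    simp [add_mul, Finset.sum_add_distrib]
  map_smul' c a := by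
    funext e
    simp [Finset.mul_sum, mul_assoc]

/-- Density of the code of a union of `C` bases. `D ≤ range (codeMap v)`, all words of `D` vanish
outside `S`. For every `j` the restriction of `D` to the coordinates `(j, i)`, `i : Fin n`, is
injective (the vectors `T j (Pi.single i 1)` span), so
`finrank D ≤ #{i : (j, i) ∈ S}`; sum over `j`. -/
theorem dense_bases {p : ℕ} [Fact p.Prime] {C n : ℕ}
    (T : Fin C → ((Fin n → ZMod p) ≃ₗ[ZMod p] (Fin n → ZMod p)))
    (D : Submodule (ZMod p) (Fin C × Fin n → ZMod p))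
    (hD : D ≤ LinearMap.range (codeMap (fun e : Fin C × Fin n => T e.1 (Pi.single e.2 1))))
    (S : Finset (Fin C × Fin n)) (hS : ∀ h ∈ D, ∀ e, e ∉ S → h e = 0) :
    C * Module.finrank (ZMod p) D ≤ S.card := by
  classical
  set φ := codeMap (fun e : Fin C × Fin n => T e.1 (Pi.single e.2 1)) with hφ
  -- the functionals
  set W : Submodule (ZMod p) (Fin n → ZMod p) := D.comap φ with hW
  have hWr : Module.finrank (ZMod p) D ≤ Module.finrank (ZMod p) W := by
    have hmap : W.map φ = D := by
      rw [hW, Submodule.map_comap_eq]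
      exact inf_eq_right.2 hD
    rw [← hmap]
    exact Submodule.finrank_map_le φ W
  -- one block
  have hblock : ∀ j : Fin C, Module.finrank (ZMod p) W ≤ (S.filter (fun e => e.1 = j)).card := by
    intro j
    let ψ : W →ₗ[ZMod p] ({e // e ∈ S.filter (fun e => e.1 = j)} → ZMod p) :=
      { toFun := fun ξ e => φ ξ.1 e.1
        map_add' := by intro a b; funext e; simp
        map_smul' := by intro c a; funext e; simp }
    have hinj : Function.Injective ψ := by
      rw [← LinearMap.ker_eq_bot, LinearMap.ker_eq_bot']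
      intro ξ hξ
      apply Subtype.ext
      apply Pool.Agent.FB9763h88.eq_zero_of_basis (T j)
      intro i
      by_cases hmem : (j, i) ∈ S
      · have := congrFun hξ ⟨(j, i), by simp [hmem]⟩
        exact this
      · have h1 : φ ξ.1 ∈ D := ξ.2
        exact hS _ h1 (j, i) hmem
    have := LinearMap.finrank_le_finrank_of_injective hinj
    rw [Module.finrank_fintype_fun_eq_card, Fintype.card_coe] at this
    exact this
  have hsum : ∑ j : Fin C, (S.filter (fun e => e.1 = j)).card = S.card := by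
    rw [← Finset.card_eq_sum_card_fiberwise]
    intro e _
    exact Finset.mem_coe.2 (Finset.mem_univ _)
  have hle : C * Module.finrank (ZMod p) W ≤ S.card := by
    rw [← hsum]
    calc C * Module.finrank (ZMod p) W = ∑ _j : Fin C, Module.finrank (ZMod p) W := by simp
      _ ≤ _ := Finset.sum_le_sum (fun j _ => hblock j)
  exact le_trans (Nat.mul_le_mul_left C hWr) hle

/-- Assembly. -/
theorem final (p : ℕ) (hp : p.Prime) : ∃ C : ℕ, ∀ n : ℕ,
    ∀ T : Fin C → ((Fin n → ZMod p) ≃ₗ[ZMod p] (Fin n → ZMod p)),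
      ∀ y : Fin n → ZMod p,
        ∃ x : Fin C → Fin n → ZMod p,
          (∀ j i, x j i = 0 ∨ x j i = 1) ∧ ∑ j, T j (x j) = y := by
  classical
  haveI : Fact p.Prime := ⟨hp⟩
  obtain ⟨x, de, rho, lam, t, hP⟩ := exists_par p hp
  obtain ⟨C₀, hC₀⟩ : ∃ C₀ : ℕ, t < (rho ^ 2) ^ C₀ := by
    apply pow_unbounded_of_one_lt
    have := hP.rho1
    nlinarith
  have hrho2 : 1 < rho ^ 2 := by
    have := hP.rho1
    nlinarith
  have hC : t < rho ^ (2 * (C₀ + 1)) := by
    rw [pow_mul, pow_succ]
    have h1 : (0 : ℝ) < (rho ^ 2) ^ C₀ := pow_pos (by linarith) _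
    nlinarith
  refine ⟨C₀ + 1, fun n T y => ?_⟩
  apply Pool.Agent.FB9763h88.cubes_of_subset_sum
  obtain ⟨a, ha, hcov⟩ := cov_dense hP hC
    (LinearMap.range (codeMap (fun e : Fin (C₀ + 1) × Fin n => T e.1 (Pi.single e.2 1))))
    (fun D hD S hS => dense_bases T D hD S hS)
  apply fourier (fun e : Fin (C₀ + 1) × Fin n => T e.1 (Pi.single e.2 1)) a ha
  intro ξ hξ
  obtain ⟨e, he⟩ := hcov
    (codeMap (fun e : Fin (C₀ + 1) × Fin n => T e.1 (Pi.single e.2 1)) ξ) ⟨ξ, rfl⟩ (by
    intro h0
    apply hξ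
    apply Pool.Agent.FB9763h88.eq_zero_of_basis (T ⟨0, Nat.succ_pos _⟩)
    intro i
    exact congrFun h0 (⟨0, Nat.succ_pos _⟩, i))
  exact ⟨e, he⟩

end FB9
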