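import Pool.Agent.W_fb9763_h19.Disj

set_option autoImplicit false

namespace FB9

open Finset

/-- A maximal pairwise disjoint subfamily: for every finite family `N` of nonempty sets there is
`D ⊆ N` pairwise disjoint such that every `A ∈ N` is not disjoint from some `B ∈ D`
(take `D` of maximal cardinality). -/
theorem exists_max_disj {E : Type*} [DecidableEq E] (N : Finset (Finset E))
    (hN : ∀ A ∈ N, A.Nonempty) :
    ∃ D ⊆ N, (D : Set (Finset E)).PairwiseDisjoint id ∧ ∀ A ∈ N, ∃ B ∈ D, ¬ Disjoint A B := by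
  classical
  have hfin : (N.powerset.filter
      (fun D : Finset (Finset E) => (D : Set (Finset E)).PairwiseDisjoint id)).Nonempty :=
    ⟨∅, by simp⟩
  obtain ⟨D, hD, hmax⟩ := Finset.exists_max_image _ Finset.card hfin
  rw [Finset.mem_filter, Finset.mem_powerset] at hD
  refine ⟨D, hD.1, hD.2, fun A hA => ?_⟩
  by_contra hcon
  push Not at hcon
  have hAD : A ∉ D := fun h => (hN A hA).ne_empty (disjoint_self.1 (hcon A h))
  have h1 := hmax (insert A D) (by
    rw [Finset.mem_filter, Finset.mem_powerset]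
    refine ⟨Finset.insert_subset hA hD.1, ?_⟩
    rw [Finset.coe_insert]
    exact hD.2.insert fun B hB _ => hcon B hB)
  rw [Finset.card_insert_of_notMem hAD] at h1
  omega

private theorem allCh_sum_le {E : Type*} [DecidableEq E] (S : Finset E)
    (Xs : Finset (Finset E)) (C : E → Finset (Finset E)) (f : Finset E → ℝ) (hf : ∀ X, 0 ≤ f X)
    (h : ∀ X ∈ Xs, ∃ e ∈ S, X ∈ C e) : ∑ X ∈ Xs, f X ≤ ∑ e ∈ S, ∑ X ∈ C e, f X := by
  calc ∑ X ∈ Xs, f X ≤ ∑ X ∈ Xs, ∑ e ∈ S, (if X ∈ C e then f X else 0) := by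
        refine Finset.sum_le_sum fun X hX => ?_
        obtain ⟨e, he, heX⟩ := h X hX
        have h1 := Finset.single_le_sum (f := fun e => if X ∈ C e then f X else 0)
          (fun i _ => by
            split_ifs
            · exact hf X
            · exact le_rfl) he
        simpa [heX] using h1
    _ = ∑ e ∈ S, ∑ X ∈ Xs, (if X ∈ C e then f X else 0) := Finset.sum_comm
    _ ≤ ∑ e ∈ S, ∑ X ∈ C e, f X := by
        refine Finset.sum_le_sum fun e _ => ?_
        rw [← Finset.sum_filter]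
        refine Finset.sum_le_sum_of_subset_of_nonneg ?_ fun X _ _ => hf X
        intro X hX
        exact (Finset.mem_filter.1 hX).2

/-- Chords of a given size `a ≥ 1`. `b = sb / lam`. Let `N` be the new chords of cardinality `a`
and `D` a maximal disjoint subfamily. Every `A ∈ N` contains an element `e` of `D.sup id` and lies
in `circs d Z e`; for fixed `e` the number of such `A` is at most `b ^ a * (lam / t)`
(`good_sum` for `Z`: each of them contributes `(b⁻¹)^a`). So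
`|N| ≤ |D.sup id| * b^a * (lam/t) ≤ |D| a b^a (lam/t) ≤ 2 |Z \ Z'| a (lam / t) b^(4a)`. -/
theorem chords_size {E : Type*} [Fintype E] [DecidableEq E] {d : Finset E → ℕ} (hd : Nul d)
    {lam t sb : ℝ} (hlam : 0 < lam) (ht : 0 < t) (hsb : 0 < sb) (hb : 1 < sb / lam)
    (hK : lam / t ≤ (sb / lam - 1) / 2)
    {Z' Z : Finset E} (hZ : Z' ⊆ Z) (hZ' : Good sb t lam d Z') (hZg : Good sb t lam d Z)
    {a : ℕ} (ha0 : 1 ≤ a) :
    (((newcs d Z' Z).filter (fun A => A.card = a)).card : ℝ) ≤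
      2 * (Z \ Z').card * a * (lam / t) * (sb / lam) ^ (4 * a) := by
  classical
  set N := (newcs d Z' Z).filter (fun A => A.card = a) with hN
  have hNm : ∀ A ∈ N, NewC d Z' Z A ∧ A.card = a := by
    intro A hA
    rw [hN, Finset.mem_filter, mem_newcs] at hA
    exact hA
  obtain ⟨D, hDN, hDd, hDm⟩ := exists_max_disj N (fun A hA => by
    rw [← Finset.card_pos, (hNm A hA).2]
    omega)
  have hDc := disj_chords hd hlam ht hsb hb hK hZ hZ' D (fun A hA => (hNm A (hDN hA)).1) hDd ha0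
    (fun A hA => (hNm A (hDN hA)).2)
  set r : ℝ := lam / sb with hr
  have hr0 : 0 < r := div_pos hlam hsb
  have hbr : sb / lam = r⁻¹ := by rw [hr, inv_div]
  rw [hbr] at hb hK hDc ⊢
  have hbr1 : ∀ n : ℕ, r ^ n * (r⁻¹) ^ n = 1 := by
    intro n
    rw [← mul_pow, mul_inv_cancel₀ hr0.ne', one_pow]
  have h1 : ∑ A ∈ N, r ^ A.card ≤ ∑ e ∈ D.sup id, ∑ X ∈ circs d Z e, r ^ X.card := by
    refine allCh_sum_le _ _ _ _ (fun X => by positivity) fun A hA => ?_
    obtain ⟨B, hB, hAB⟩ := hDm A hA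
    obtain ⟨e, heA, heB⟩ := Finset.not_disjoint_iff.1 hAB
    exact ⟨e, Finset.mem_sup.2 ⟨B, hB, heB⟩, mem_circs.2 ⟨(hNm A hA).1.1, heA⟩⟩
  have h2 : ∀ e ∈ D.sup id, ∑ X ∈ circs d Z e, r ^ X.card ≤ lam / t := by
    intro e he
    refine good_sum hd hlam ht hsb hZg ?_
    obtain ⟨A, hA, heA⟩ := Finset.mem_sup.1 he
    exact Finset.disjoint_left.1 (hNm A (hDN hA)).1.1.1 heA
  have h9 : ((D.sup id).card : ℝ) ≤ D.card * a := by
    have : (D.sup id).card ≤ D.card * a := by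
      rw [Finset.sup_eq_biUnion]
      refine Finset.card_biUnion_le.trans ?_
      calc ∑ A ∈ D, (id A).card = ∑ _A ∈ D, a :=
            Finset.sum_congr rfl fun A hA => (hNm A (hDN hA)).2
        _ = D.card * a := by rw [Finset.sum_const, smul_eq_mul]
        _ ≤ D.card * a := le_rfl
    exact_mod_cast this
  have h3 : ∑ A ∈ N, r ^ A.card = N.card * r ^ a := by
    rw [Finset.sum_congr (g := fun _ => r ^ a) rfl (fun A hA => by rw [(hNm A hA).2]),
      Finset.sum_const, nsmul_eq_mul]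
  have hK0 : 0 < lam / t := div_pos hlam ht
  have h4 : (N.card : ℝ) * r ^ a ≤ 2 * (Z \ Z').card * (r⁻¹) ^ (3 * a) * a * (lam / t) := by
    calc (N.card : ℝ) * r ^ a = ∑ A ∈ N, r ^ A.card := h3.symm
      _ ≤ ∑ e ∈ D.sup id, ∑ X ∈ circs d Z e, r ^ X.card := h1
      _ ≤ ∑ _e ∈ D.sup id, (lam / t) := Finset.sum_le_sum h2
      _ = (D.sup id).card * (lam / t) := by rw [Finset.sum_const, nsmul_eq_mul]
      _ ≤ (D.card * a) * (lam / t) := mul_le_mul_of_nonneg_right h9 hK0.le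
      _ ≤ (2 * (Z \ Z').card * (r⁻¹) ^ (3 * a) * a) * (lam / t) :=
          mul_le_mul_of_nonneg_right (mul_le_mul_of_nonneg_right hDc (Nat.cast_nonneg a)) hK0.le
      _ = _ := by ring
  calc (N.card : ℝ) = (N.card * r ^ a) * (r⁻¹) ^ a := by rw [mul_assoc, hbr1, mul_one]
    _ ≤ (2 * (Z \ Z').card * (r⁻¹) ^ (3 * a) * a * (lam / t)) * (r⁻¹) ^ a :=
        mul_le_mul_of_nonneg_right h4 (by positivity)
    _ = _ := by
      rw [show 4 * a = 3 * a + a by ring, pow_add]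
      ring

/-- Sum over all new chords. With `b = sb / lam`, `z ≤ (b⁻¹)^6`: split by the cardinality `a ≥ 1`
(circuits are nonempty, `a ≤ card E`):
`∑ z^|A| ≤ ∑_a 2 w a K b^(4a) (b⁻¹)^(6a) = 2 w K ∑_a a (b⁻¹)^a (b⁻¹)^a ≤ 2 w K / (b-1) * ∑_{a≥1} (b⁻¹)^a
≤ 2 w K / (b-1)^2`, using `a (b-1) ≤ b^a` and `∑_{a ≥ 1} (b⁻¹)^a ≤ 1/(b-1)`. -/
theorem all_chords {E : Type*} [Fintype E] [DecidableEq E] {d : Finset E → ℕ} (hd : Nul d)
    {lam t sb : ℝ} (hlam : 0 < lam) (ht : 0 < t) (hsb : 0 < sb) (hb : 1 < sb / lam)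
    (hK : lam / t ≤ (sb / lam - 1) / 2)
    {Z' Z : Finset E} (hZ : Z' ⊆ Z) (hZ' : Good sb t lam d Z') (hZg : Good sb t lam d Z)
    {z : ℝ} (hz : 0 ≤ z) (hz6 : z * (sb / lam) ^ 6 ≤ 1) :
    ∑ A ∈ newcs d Z' Z, z ^ A.card ≤ (Z \ Z').card * (2 * (lam / t) / (sb / lam - 1) ^ 2) := by
  classical
  set b : ℝ := sb / lam with hbdef
  have hb0 : 0 < b := by linarith
  have hK0 : 0 < lam / t := div_pos hlam ht
  set w : ℝ := ((Z \ Z').card : ℝ) with hw
  have hw0 : 0 ≤ w := by positivity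
  -- circuits are nonempty
  have hne : ∀ A ∈ newcs d Z' Z, 1 ≤ A.card := by
    intro A hA
    rw [mem_newcs] at hA
    rw [Nat.one_le_iff_ne_zero, Ne, Finset.card_eq_zero]
    rintro rfl
    have := hA.1.2.1
    simp at this
  set n := Fintype.card E with hn
  have hmap : ∀ A ∈ newcs d Z' Z, A.card ∈ Finset.Icc 1 n := fun A hA =>
    Finset.mem_Icc.2 ⟨hne A hA, Finset.card_le_univ A⟩
  have h1 : ∑ A ∈ newcs d Z' Z, z ^ A.card =
      ∑ a ∈ Finset.Icc 1 n, ∑ A ∈ (newcs d Z' Z).filter (fun A => A.card = a), z ^ A.card :=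
    (Finset.sum_fiberwise_of_maps_to hmap _).symm
  have hz' : z ≤ (b⁻¹) ^ 6 := by
    rw [inv_pow, ← one_div, le_div_iff₀ (by positivity)]
    exact hz6
  have h2 : ∀ a ∈ Finset.Icc 1 n,
      ∑ A ∈ (newcs d Z' Z).filter (fun A => A.card = a), z ^ A.card ≤
        2 * w * (lam / t) / (b - 1) * (b⁻¹) ^ a := by
    intro a ha
    have ha1 : 1 ≤ a := (Finset.mem_Icc.1 ha).1
    have h3 : ∑ A ∈ (newcs d Z' Z).filter (fun A => A.card = a), z ^ A.card =
        ((newcs d Z' Z).filter (fun A => A.card = a)).card * z ^ a := by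
      rw [Finset.sum_congr (g := fun _ => z ^ a) rfl (fun A hA => by
        rw [(Finset.mem_filter.1 hA).2]), Finset.sum_const, nsmul_eq_mul]
    rw [h3]
    have h4 := chords_size hd hlam ht hsb hb hK hZ hZ' hZg ha1
    have h5 : z ^ a ≤ (b⁻¹) ^ (6 * a) := by
      rw [pow_mul]
      exact pow_le_pow_left₀ hz hz' a
    have h6 : (a : ℝ) ≤ b ^ a / (b - 1) := by
      rw [le_div_iff₀ (by linarith)]
      exact mul_le_pow hb a
    have hbb : ∀ m : ℕ, b ^ m * (b⁻¹) ^ m = 1 := by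
      intro m
      rw [← mul_pow, mul_inv_cancel₀ hb0.ne', one_pow]
    calc (((newcs d Z' Z).filter (fun A => A.card = a)).card : ℝ) * z ^ a
        ≤ (2 * w * a * (lam / t) * b ^ (4 * a)) * (b⁻¹) ^ (6 * a) :=
          mul_le_mul h4 h5 (by positivity) (by positivity)
      _ = 2 * w * a * (lam / t) * (b ^ (4 * a) * (b⁻¹) ^ (4 * a)) * ((b⁻¹) ^ a * (b⁻¹) ^ a) := by
          rw [show 6 * a = 4 * a + (a + a) by ring, pow_add, pow_add]
          ring
      _ = 2 * w * a * (lam / t) * ((b⁻¹) ^ a * (b⁻¹) ^ a) := by rw [hbb, mul_one]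
      _ ≤ 2 * w * (b ^ a / (b - 1)) * (lam / t) * ((b⁻¹) ^ a * (b⁻¹) ^ a) := by
          refine mul_le_mul_of_nonneg_right (mul_le_mul_of_nonneg_right
            (mul_le_mul_of_nonneg_left h6 (by positivity)) hK0.le) (by positivity)
      _ = 2 * w * (lam / t) / (b - 1) * ((b ^ a * (b⁻¹) ^ a) * (b⁻¹) ^ a) := by
          ring
      _ = _ := by rw [hbb, one_mul]
  have h7 : ∑ a ∈ Finset.Icc 1 n, (b⁻¹) ^ a ≤ 1 / (b - 1) := by
    have h8 : ∀ m : ℕ, ∑ a ∈ Finset.Icc 1 m, (b⁻¹) ^ a + (b⁻¹) ^ m / (b - 1) = 1 / (b - 1) := by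
      intro m
      induction m with
      | zero => simp
      | succ m ih =>
        rw [Finset.sum_Icc_succ_top (by omega), ← ih]
        have h9 : (b⁻¹) ^ (m + 1) * (b - 1) + (b⁻¹) ^ (m + 1) = (b⁻¹) ^ m := by
          rw [pow_succ]
          field_simp
          ring
        have h10 : b - 1 ≠ 0 := by linarith
        field_simp at h9 ⊢
        nlinarith [h9]
    have h11 : 0 ≤ (b⁻¹) ^ n / (b - 1) := div_nonneg (by positivity) (by linarith)
    linarith [h8 n]
  rw [h1]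
  have h12 : 0 ≤ 2 * w * (lam / t) / (b - 1) := div_nonneg (by positivity) (by linarith)
  calc ∑ a ∈ Finset.Icc 1 n, ∑ A ∈ (newcs d Z' Z).filter (fun A => A.card = a), z ^ A.card
      ≤ ∑ a ∈ Finset.Icc 1 n, 2 * w * (lam / t) / (b - 1) * (b⁻¹) ^ a := Finset.sum_le_sum h2
    _ = 2 * w * (lam / t) / (b - 1) * ∑ a ∈ Finset.Icc 1 n, (b⁻¹) ^ a := by
        rw [Finset.mul_sum]
    _ ≤ 2 * w * (lam / t) / (b - 1) * (1 / (b - 1)) := mul_le_mul_of_nonneg_left h7 h12
    _ = w * (2 * (lam / t) / (b - 1) ^ 2) := by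
        have h10 : b - 1 ≠ 0 := by linarith
        field_simp

end FB9
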