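import Pool.Agent.W_fb9763_h19.Defs

set_option autoImplicit false

namespace FB9

open Finset

/-- Pairwise disjoint circuits of `M / Z` add at least one each to the nullity: induction on `J`,
supermodularity for `Z ∪ J.sup id` and `Z ∪ A` (their intersection is `Z`). -/
theorem nul_sup {E : Type*} [DecidableEq E] {d : Finset E → ℕ} (hd : Nul d)
    {Z : Finset E} (J : Finset (Finset E)) (hJ : ∀ A ∈ J, Circ d Z A)
    (hdis : (J : Set (Finset E)).PairwiseDisjoint id) : d Z + J.card ≤ d (Z ∪ J.sup id) := by
  classical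
  induction J using Finset.induction_on with
  | empty => simp
  | insert A J hA ih =>
    have h1 := ih (fun B hB => hJ B (Finset.mem_insert_of_mem hB))
      (hdis.subset (by rw [Finset.coe_insert]; exact Set.subset_insert _ _))
    have hAc := hJ A (Finset.mem_insert_self _ _)
    have hdisj : Disjoint A (J.sup id) := by
      rw [Finset.disjoint_sup_right]
      intro B hB
      exact hdis (Finset.mem_coe.2 (Finset.mem_insert_self _ _))
        (Finset.mem_coe.2 (Finset.mem_insert_of_mem hB)) (fun h => hA (h ▸ hB))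
    have h2 := hd.super (Z ∪ J.sup id) (Z ∪ A)
    have h3 : (Z ∪ J.sup id) ∩ (Z ∪ A) = Z := by
      rw [← Finset.union_inter_distrib_left, Finset.inter_comm, Finset.disjoint_iff_inter_eq_empty.1 hdisj,
        Finset.union_empty]
    have h4 : (Z ∪ J.sup id) ∪ (Z ∪ A) = Z ∪ (insert A J).sup id := by
      rw [Finset.sup_insert]
      ext x
      simp only [Finset.mem_union, id, Finset.sup_eq_union]
      tauto
    rw [h3, h4, hAc.2.1] at h2
    rw [Finset.card_insert_of_notMem hA]
    omega

/-- Removing the elements of `R` one by one decreases the nullity by at most `|R|`: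
`d (U ∪ R) ≤ d U + |R|`. -/
theorem nul_union_le {E : Type*} [DecidableEq E] {d : Finset E → ℕ} (hd : Nul d)
    (U R : Finset E) : d (U ∪ R) ≤ d U + R.card := by
  classical
  induction R using Finset.induction_on with
  | empty => simp
  | insert e R he ih =>
    rw [Finset.union_insert, Finset.card_insert_of_notMem he]
    have := hd.insert_le (U ∪ R) e
    omega

/-- If `U` is disjoint from `Z` and dependent in `M / Z` then it contains a circuit of `M / Z`:
take `X ⊆ U` of minimal cardinality with `d Z < d (Z ∪ X)`; removing one element shows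
`d (Z ∪ X) = d Z + 1`. -/
theorem exists_circ {E : Type*} [DecidableEq E] {d : Finset E → ℕ} (hd : Nul d)
    {Z U : Finset E} (hU : Disjoint U Z) (h : d Z < d (Z ∪ U)) : ∃ X ⊆ U, Circ d Z X := by
  classical
  let P := U.powerset.filter (fun X => d Z < d (Z ∪ X))
  have hP : P.Nonempty := ⟨U, by simp [P, h]⟩
  obtain ⟨X, hX, hmin⟩ := Finset.exists_min_image P Finset.card hP
  simp only [P, Finset.mem_filter, Finset.mem_powerset] at hX
  obtain ⟨hXU, hXd⟩ := hX
  have hsub : ∀ B : Finset E, B ⊂ X → d (Z ∪ B) = d Z := by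
    intro B hB
    have h1 := hd.mono Z (Z ∪ B) Finset.subset_union_left
    by_contra hne
    have h2 : B ∈ P := by
      simp only [P, Finset.mem_filter, Finset.mem_powerset]
      exact ⟨hB.1.trans hXU, by omega⟩
    have h3 := hmin B h2
    have h4 := Finset.card_lt_card hB
    omega
  refine ⟨X, hXU, ?_, ?_, hsub⟩
  · exact Finset.disjoint_of_subset_left hXU hU
  · have hne : X.Nonempty := by
      rw [Finset.nonempty_iff_ne_empty]
      rintro rfl
      simp at hXd
    obtain ⟨e, he⟩ := hne
    have h1 := hsub (X.erase e) (Finset.erase_ssubset he)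
    have h2 := hd.insert_le (Z ∪ X.erase e) e
    have h3 : insert e (Z ∪ X.erase e) = Z ∪ X := by
      rw [← Finset.union_insert, Finset.insert_erase he]
    rw [h3, h1] at h2
    omega

/-- Every subfamily `J` of a pairwise disjoint family `D` of new chords meets the hypothesis of
`hyper` with `w = |Z \ Z'|`, `Xs = inCircs d Z' (D.sup id)`, `phi = meets D`.
Proof: (1) if `|Z \ Z'| < |J|` then by `nul_sup` and `nul_union_le`
(`Z ∪ J.sup id ⊆ (Z' ∪ J.sup id) ∪ (Z \ Z')`, and `d Z' ≤ d Z`) `d Z' < d (Z' ∪ J.sup id)`, so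
`J.sup id` (disjoint from `Z ⊇ Z'`) contains a circuit `X` of `M / Z'` by `exists_circ`, and
`meets D X ⊆ J` because the members of `D \ J` are disjoint from `J.sup id`. (2) Induction on `|J|`:
if `|J| ≤ w` nothing to do; otherwise take `X` as in (1); `X` is nonempty so some `A ∈ meets D X`
lies in `J`; apply the induction hypothesis to `J.erase A`; `X` is counted for `J` but not for
`J.erase A`. -/
theorem chord_hyp {E : Type*} [Fintype E] [DecidableEq E] {d : Finset E → ℕ} (hd : Nul d)
    {Z' Z : Finset E} (hZ : Z' ⊆ Z) (D : Finset (Finset E)) (hD : ∀ A ∈ D, NewC d Z' Z A)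
    (hdis : (D : Set (Finset E)).PairwiseDisjoint id) :
    ∀ J ⊆ D, J.card ≤ (Z \ Z').card +
      ((inCircs d Z' (D.sup id)).filter (fun X => meets D X ⊆ J)).card := by
  classical
  have key : ∀ J ⊆ D, (Z \ Z').card < J.card → ∃ X, Circ d Z' X ∧ X ⊆ J.sup id ∧ meets D X ⊆ J := by
    intro J hJ hlt
    have h1 := nul_sup hd (Z := Z) J (fun A hA => (hD A (hJ hA)).1) (hdis.subset (by exact_mod_cast hJ))
    have h2 := hd.mono Z' Z hZ
    have h3 : Z ∪ J.sup id ⊆ (Z' ∪ J.sup id) ∪ (Z \ Z') := by
      intro x hx
      simp only [Finset.mem_union, Finset.mem_sdiff] at hx ⊢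
      tauto
    have h4 := hd.mono _ _ h3
    have h5 := nul_union_le hd (Z' ∪ J.sup id) (Z \ Z')
    have hdj : Disjoint (J.sup id) Z' := by
      rw [Finset.disjoint_sup_left]
      intro A hA
      exact Finset.disjoint_of_subset_right hZ (hD A (hJ hA)).1.1
    obtain ⟨X, hXU, hX⟩ := exists_circ hd hdj (by omega)
    refine ⟨X, hX, hXU, ?_⟩
    intro A hA
    rw [mem_meets] at hA
    by_contra hAJ
    apply hA.2
    apply Finset.disjoint_of_subset_right hXU
    rw [Finset.disjoint_sup_right]
    intro B hB
    exact hdis (Finset.mem_coe.2 hA.1) (Finset.mem_coe.2 (hJ hB)) (fun h => hAJ (h ▸ hB))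
  intro J
  induction J using Finset.strongInduction with
  | H J ih =>
    intro hJ
    by_cases hlt : (Z \ Z').card < J.card
    · obtain ⟨X, hX, hXU, hXm⟩ := key J hJ hlt
      have hne : X.Nonempty := by
        rw [Finset.nonempty_iff_ne_empty]
        rintro rfl
        have := hX.2.1
        simp at this
      obtain ⟨x, hx⟩ := hne
      obtain ⟨A, hA, hxA⟩ := Finset.mem_sup.1 (hXU hx)
      have hAm : A ∈ meets D X := by
        rw [mem_meets]
        exact ⟨hJ hA, fun h => Finset.disjoint_left.1 h hxA hx⟩
      have h1 := ih (J.erase A) (Finset.erase_ssubset hA) ((Finset.erase_subset _ _).trans hJ)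
      have h2 : ((inCircs d Z' (D.sup id)).filter (fun X => meets D X ⊆ J.erase A)).card <
          ((inCircs d Z' (D.sup id)).filter (fun X => meets D X ⊆ J)).card := by
        apply Finset.card_lt_card
        rw [Finset.ssubset_iff_of_subset]
        · refine ⟨X, ?_, ?_⟩
          · rw [Finset.mem_filter, mem_inCircs]
            exact ⟨⟨hX, hXU.trans (Finset.sup_mono hJ)⟩, hXm⟩
          · rw [Finset.mem_filter]
            rintro ⟨_, h⟩
            exact Finset.notMem_erase A J (h hAm)
        · intro Y hY
          rw [Finset.mem_filter] at hY ⊢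
          exact ⟨hY.1, hY.2.trans (Finset.erase_subset _ _)⟩
      rw [Finset.card_erase_of_mem hA] at h1
      omega
    · omega

/-- A circuit `X ⊆ D.sup id` of `M / Z'` meets at least two members of `D`, and if all members of
`D` have `a` elements then `|X| ≤ a * |meets D X|`. Proof: `X ⊆ (meets D X).sup id` has at most
`a * |meets D X|` elements; `X` is nonempty so `meets D X` is nonempty, and if it were `{A}` then
`X ⊆ A`, `d Z' + 1 = d (Z' ∪ X) ≤ d (Z' ∪ A) = d Z'`, a contradiction. -/
theorem meets_card {E : Type*} [Fintype E] [DecidableEq E] {d : Finset E → ℕ} (hd : Nul d)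
    {Z' Z : Finset E} {D : Finset (Finset E)} (hD : ∀ A ∈ D, NewC d Z' Z A) {a : ℕ}
    (ha : ∀ A ∈ D, A.card = a) {X : Finset E} (hX : X ∈ inCircs d Z' (D.sup id)) :
    2 ≤ (meets D X).card ∧ X.card ≤ a * (meets D X).card := by
  classical
  rw [mem_inCircs] at hX
  obtain ⟨hXc, hXU⟩ := hX
  have hne : X.Nonempty := by
    rw [Finset.nonempty_iff_ne_empty]
    rintro rfl
    have := hXc.2.1
    simp at this
  have hcov : X ⊆ (meets D X).biUnion id := by
    intro x hx
    obtain ⟨A, hA, hxA⟩ := Finset.mem_sup.1 (hXU hx)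
    rw [Finset.mem_biUnion]
    refine ⟨A, ?_, hxA⟩
    rw [mem_meets]
    exact ⟨hA, fun h => Finset.disjoint_left.1 h hxA hx⟩
  constructor
  · by_contra hlt
    have hpos : 0 < (meets D X).card := by
      rw [Finset.card_pos]
      obtain ⟨x, hx⟩ := hne
      obtain ⟨A, hA, _⟩ := Finset.mem_biUnion.1 (hcov hx)
      exact ⟨A, hA⟩
    have h1 : (meets D X).card = 1 := by omega
    obtain ⟨A, hA⟩ := Finset.card_eq_one.1 h1
    rw [hA] at hcov
    have hXA : X ⊆ A := by simpa using hcov
    have hAD : A ∈ D := by
      have : A ∈ meets D X := by rw [hA]; exact Finset.mem_singleton_self _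
      exact (mem_meets.1 this).1
    have h2 := hd.mono _ _ (Finset.union_subset_union_right (s := Z') hXA)
    have h3 := (hD A hAD).2
    have h4 := hXc.2.1
    omega
  · calc X.card ≤ ((meets D X).biUnion id).card := Finset.card_le_card hcov
      _ ≤ ∑ A ∈ meets D X, (id A).card := Finset.card_biUnion_le
      _ = ∑ A ∈ meets D X, a := by
          refine Finset.sum_congr rfl fun A hA => ?_
          exact ha A (mem_meets.1 hA).1
      _ = a * (meets D X).card := by rw [Finset.sum_const, smul_eq_mul, mul_comm]

end FB9
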