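import Pool.Agent.W_fb9763_h19.Defs

set_option autoImplicit false

namespace FB9

open Finset

/-- Two circuits `X, Y` of `M / Z` with `d (Z ∪ X ∪ Y) ≤ d Z + 1` are equal: supermodularity for
`Z ∪ X`, `Z ∪ Y` gives `2 d Z + 2 ≤ d (Z ∪ X ∪ Y) + d (Z ∪ (X ∩ Y))`, so `X ∩ Y` is not a proper
subset of `X` nor of `Y`. -/
theorem circ_unique {E : Type*} [DecidableEq E] {d : Finset E → ℕ} (hd : Nul d)
    {Z X Y : Finset E} (hX : Circ d Z X) (hY : Circ d Z Y) (h : d (Z ∪ X ∪ Y) ≤ d Z + 1) :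
    X = Y := by
  have h1 := hd.super (Z ∪ X) (Z ∪ Y)
  have e1 : (Z ∪ X) ∪ (Z ∪ Y) = Z ∪ X ∪ Y := by
    ext a; simp only [mem_union]; tauto
  have e2 : (Z ∪ X) ∩ (Z ∪ Y) = Z ∪ (X ∩ Y) := by
    ext a; simp only [mem_union, mem_inter]; tauto
  rw [e1, e2, hX.2.1, hY.2.1] at h1
  have h2 : X ∩ Y = X := by
    by_contra hne
    have h3 := hX.2.2 (X ∩ Y) (lt_of_le_of_ne inter_subset_left hne)
    omega
  have h3 : X ∩ Y = Y := by
    by_contra hne
    have h3 := hY.2.2 (X ∩ Y) (lt_of_le_of_ne inter_subset_right hne)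
    omega
  exact h2.symm.trans h3

/-- KEY INJECTION. Consider the pairs `(X, W)` with `X` a circuit of `M / Z` through `e` and `W`
counted in `F (Z ∪ X)`, i.e. `W` disjoint from `Z ∪ X` and `d (Z ∪ X ∪ W) = d (Z ∪ X) = d Z + 1`.
Map `(X, W)` to `W' = X.erase e ∪ W`. Then `W'` is disjoint from `Z`, `|X| + |W| = |W'| + 1` and
`d (Z ∪ W') = d Z` (supermodularity for `Z ∪ X` and `Z ∪ W'`, whose intersection is
`Z ∪ X.erase e`, of nullity `d Z` because `X` is a circuit:
`d Z + 1 + d (Z ∪ W') ≤ d (Z ∪ X ∪ W) + d Z = 2 d Z + 1`), so `W'` is counted in `F Z`.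
The map is injective: `insert e W' = X ∪ W`; if `(X, W)`, `(Y, V)` have the same image then
`Z ∪ X ∪ Y ⊆ Z ∪ X ∪ W` has nullity at most `d Z + 1`, so `X = Y` by `circ_unique` and then
`W = W' \ X = V`. The weight of `(X, W)` is `lam ^ (|X| + |W|) = lam * lam ^ |W'|`. -/
theorem circ_sum {E : Type*} [Fintype E] [DecidableEq E] {d : Finset E → ℕ} (hd : Nul d)
    {lam : ℝ} (hlam : 0 < lam) (Z : Finset E) (e : E) (he : e ∉ Z) :
    ∑ X ∈ circs d Z e, lam ^ X.card * F lam d (Z ∪ X) ≤ lam * F lam d Z := by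
  classical
  set S : Finset (Σ _ : Finset E, Finset E) := (circs d Z e).sigma
    (fun X => ((Z ∪ X)ᶜ).powerset.filter (fun W => d (Z ∪ X ∪ W) = d (Z ∪ X))) with hS
  set i : (Σ _ : Finset E, Finset E) → Finset E := fun q => q.1.erase e ∪ q.2 with hi
  have hmem : ∀ q ∈ S, Circ d Z q.1 ∧ e ∈ q.1 ∧ Disjoint q.2 (Z ∪ q.1) ∧
      d (Z ∪ q.1 ∪ q.2) = d (Z ∪ q.1) := by
    intro q hq
    rw [hS, mem_sigma, mem_filter, mem_powerset, mem_circs] at hq
    exact ⟨hq.1.1, hq.1.2, by rw [← Finset.subset_compl_iff_disjoint_right]; exact hq.2.1,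
      hq.2.2⟩
  have hins : ∀ q ∈ S, insert e (i q) = q.1 ∪ q.2 := by
    intro q hq
    rw [hi]
    show insert e (q.1.erase e ∪ q.2) = q.1 ∪ q.2
    rw [← insert_union, insert_erase (hmem q hq).2.1]
  have hei : ∀ q ∈ S, e ∉ i q := by
    intro q hq he'
    rw [hi] at he'
    rcases mem_union.1 he' with h1 | h1
    · exact (notMem_erase e q.1) h1
    · exact (disjoint_left.1 (hmem q hq).2.2.1) h1 (mem_union_right _ (hmem q hq).2.1)
  have hcard : ∀ q ∈ S, q.1.card + q.2.card = (i q).card + 1 := by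
    intro q hq
    have h1 : Disjoint q.1 q.2 :=
      (disjoint_of_subset_right subset_union_right (hmem q hq).2.2.1).symm
    rw [← card_union_of_disjoint h1, ← hins q hq, card_insert_of_notMem (hei q hq)]
  have hdi : ∀ q ∈ S, d (Z ∪ i q) = d Z := by
    intro q hq
    obtain ⟨hc, heq, hdis, hdq⟩ := hmem q hq
    have h1 := hd.super (Z ∪ q.1) (Z ∪ i q)
    have e1 : (Z ∪ q.1) ∪ (Z ∪ i q) = Z ∪ q.1 ∪ q.2 := by
      ext a
      simp only [hi, mem_union, mem_erase]
      tauto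
    have e2 : (Z ∪ q.1) ∩ (Z ∪ i q) = Z ∪ q.1.erase e := by
      ext a
      have h2 : a ∈ q.2 → a ∉ q.1 := fun ha hb =>
        (disjoint_left.1 hdis) ha (mem_union_right _ hb)
      simp only [hi, mem_union, mem_erase, mem_inter]
      tauto
    have h3 : d (Z ∪ q.1.erase e) = d Z := hc.2.2 _ (erase_ssubset heq)
    have h4 : d Z ≤ d (Z ∪ i q) := hd.mono _ _ subset_union_left
    rw [e1, e2, h3, hdq, hc.2.1] at h1
    omega
  have hinj : Set.InjOn i (S : Set (Σ _ : Finset E, Finset E)) := by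
    intro q hq r hr hqr
    have hq' : q ∈ S := hq
    have hr' : r ∈ S := hr
    have h0 : q.1 ∪ q.2 = r.1 ∪ r.2 := by rw [← hins q hq', ← hins r hr', hqr]
    obtain ⟨hc, heq, hdis, hdq⟩ := hmem q hq'
    obtain ⟨hc', heq', hdis', hdq'⟩ := hmem r hr'
    have h1 : q.1 = r.1 := by
      apply circ_unique hd hc hc'
      have h2 : Z ∪ q.1 ∪ r.1 ⊆ Z ∪ q.1 ∪ q.2 := by
        intro a ha
        rw [union_assoc, h0]
        rcases mem_union.1 ha with h3 | h3
        · rcases mem_union.1 h3 with h4 | h4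
          · exact mem_union_left _ h4
          · rw [← h0]; exact mem_union_right _ (mem_union_left _ h4)
        · exact mem_union_right _ (mem_union_left _ h3)
      have h3 := hd.mono _ _ h2
      rw [hdq, hc.2.1] at h3
      exact h3
    have h2 : q.2 = r.2 := by
      have d1 : Disjoint q.1 q.2 := (disjoint_of_subset_right subset_union_right hdis).symm
      have d2 : Disjoint r.1 r.2 := (disjoint_of_subset_right subset_union_right hdis').symm
      ext a
      have h3 : a ∈ q.1 ∪ q.2 ↔ a ∈ r.1 ∪ r.2 := by rw [h0]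
      have h4 := fun h : a ∈ q.1 => (disjoint_left.1 d1) h
      have h5 := fun h : a ∈ r.1 => (disjoint_left.1 d2) h
      rw [mem_union, mem_union] at h3
      rw [← h1] at h3 h5
      tauto
    cases q
    cases r
    simp only at h1 h2
    subst h1
    subst h2
    rfl
  have hL : ∑ X ∈ circs d Z e, lam ^ X.card * F lam d (Z ∪ X)
      = ∑ q ∈ S, lam * lam ^ (i q).card := by
    rw [hS, sum_sigma]
    apply sum_congr rfl
    intro X hX
    unfold F
    rw [mul_sum]
    apply sum_congr rfl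
    intro W hW
    have hq : (⟨X, W⟩ : Σ _ : Finset E, Finset E) ∈ S := by
      rw [hS, mem_sigma]
      exact ⟨hX, hW⟩
    have h1 := hcard _ hq
    simp only at h1
    rw [← pow_add, h1, pow_succ]
    ring
  rw [hL]
  have h2 : ∑ q ∈ S, lam * lam ^ (i q).card = ∑ W ∈ S.image i, lam * lam ^ W.card :=
    (sum_image (f := fun W : Finset E => lam * lam ^ W.card) hinj).symm
  rw [h2]
  unfold F
  rw [mul_sum]
  apply sum_le_sum_of_subset_of_nonneg
  · intro W hW
    obtain ⟨q, hq, rfl⟩ := mem_image.1 hW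
    rw [mem_filter, mem_powerset, Finset.subset_compl_iff_disjoint_right]
    refine ⟨?_, hdi q hq⟩
    obtain ⟨hc, heq, hdis, hdq⟩ := hmem q hq
    rw [hi]
    apply disjoint_union_left.2
    exact ⟨disjoint_of_subset_left (erase_subset _ _) hc.1,
      disjoint_of_subset_right subset_union_left hdis⟩
  · intro W _ _
    positivity

end FB9
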