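import Pool.Agent.W_fb9763_h19.UIneq

set_option autoImplicit false

namespace FB9

open Finset

/-- A minimiser exists (finite set of subsets, `Finset.exists_min_image`). -/
theorem exists_min {E : Type*} [Fintype E] [DecidableEq E] (s t lam : ℝ) (d : Finset E → ℕ) :
    ∃ T : Finset E, ∀ S : Finset E, Ps s t lam d T ≤ Ps s t lam d S := by
  obtain ⟨T, _, hT⟩ := Finset.exists_min_image (Finset.univ : Finset (Finset E))
    (fun S => Ps s t lam d S) ⟨∅, Finset.mem_univ _⟩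
  exact ⟨T, fun S => hT S (Finset.mem_univ _)⟩

/-- A minimiser of the potential among the supersets of `S`. -/
theorem exists_clos {E : Type*} [Fintype E] [DecidableEq E] (sb t lam : ℝ) (d : Finset E → ℕ)
    (S : Finset E) :
    ∃ Z : Finset E, S ⊆ Z ∧ Good sb t lam d Z ∧ Ps sb t lam d Z ≤ Ps sb t lam d S := by
  obtain ⟨Z, hZ, hmin⟩ := Finset.exists_min_image (Finset.univ.filter (fun Z : Finset E => S ⊆ Z))
    (fun S => Ps sb t lam d S) ⟨S, Finset.mem_filter.2 ⟨Finset.mem_univ _, Subset.rfl⟩⟩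
  have hSZ : S ⊆ Z := (Finset.mem_filter.1 hZ).2
  refine ⟨Z, hSZ, fun S' hS' => ?_, ?_⟩
  · exact hmin S' (Finset.mem_filter.2 ⟨Finset.mem_univ _, hSZ.trans hS'⟩)
  · exact hmin S (Finset.mem_filter.2 ⟨Finset.mem_univ _, Subset.rfl⟩)

/-- `Ps (s * r) = r ^ card * Ps s`. -/
theorem Ps_mul {E : Type*} [Fintype E] [DecidableEq E] (s r t lam : ℝ) (d : Finset E → ℕ)
    (S : Finset E) : Ps (s * r) t lam d S = r ^ S.card * Ps s t lam d S := by
  unfold Ps
  rw [mul_pow]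
  ring

/-- If `T` minimises `Ps s` and `r ≥ 1` then for `T ⊆ Z`
`r ^ |Z \ T| * Ps (s r) T ≤ Ps (s r) Z` (use `Ps_mul`). -/
theorem pi_lower {E : Type*} [Fintype E] [DecidableEq E] {s r t lam : ℝ} {d : Finset E → ℕ}
    {T : Finset E} (hT : ∀ S : Finset E, Ps s t lam d T ≤ Ps s t lam d S) (hr : 1 ≤ r)
    {Z : Finset E} (hZ : T ⊆ Z) :
    r ^ (Z \ T).card * Ps (s * r) t lam d T ≤ Ps (s * r) t lam d Z := by
  have h1 : (Z \ T).card + T.card = Z.card := Finset.card_sdiff_add_card_eq_card hZ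
  rw [Ps_mul, Ps_mul, ← mul_assoc, ← pow_add, h1]
  exact mul_le_mul_of_nonneg_left (hT Z) (by positivity)

/-- If `T` minimises `Ps s` and `r ≥ 1` then `T` is good for `s * r` (needs `Ps ≥ 0`, which follows
from `F_pos` if `s, t, lam > 0`). -/
theorem min_good {E : Type*} [Fintype E] [DecidableEq E] {s r t lam : ℝ} {d : Finset E → ℕ}
    (hs : 0 < s) (ht : 0 < t) (hlam : 0 < lam)
    {T : Finset E} (hT : ∀ S : Finset E, Ps s t lam d T ≤ Ps s t lam d S) (hr : 1 ≤ r) :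
    Good (s * r) t lam d T := by
  intro S hS
  have h0 : 0 ≤ Ps (s * r) t lam d T := by
    unfold Ps
    have := (F_pos hlam d T).le
    have hr0 : 0 ≤ r := by linarith
    positivity
  have h1 : 1 ≤ r ^ (S \ T).card := one_le_pow₀ hr
  calc Ps (s * r) t lam d T ≤ r ^ (S \ T).card * Ps (s * r) t lam d T :=
        le_mul_of_one_le_left h0 h1
    _ ≤ Ps (s * r) t lam d S := pi_lower hT hr hS

/-- For `R` disjoint from `Z`: by `F_union`,
`F (Z ∪ R) ≤ (1+lam)^(k - |R|) F Z` with `k = d (Z ∪ R) - d Z`, so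
`Ps (q (1+lam)) (Z ∪ R) ≤ q ^ |R| * ((1+lam)/t)^k * Ps (q (1+lam)) Z` and `(1+lam)/t ≤ 1`. -/
theorem Ps_union {E : Type*} [Fintype E] [DecidableEq E] {d : Finset E → ℕ} (hd : Nul d)
    {q t lam : ℝ} (hq : 0 < q) (hlam : 0 < lam) (ht : 1 + lam ≤ t) {Z R : Finset E}
    (hR : Disjoint R Z) :
    Ps (q * (1 + lam)) t lam d (Z ∪ R) ≤ q ^ R.card * Ps (q * (1 + lam)) t lam d Z := by
  obtain ⟨k, hk⟩ : ∃ k, d (Z ∪ R) = d Z + k :=
    ⟨d (Z ∪ R) - d Z, by
      have := hd.mono Z (Z ∪ R) Finset.subset_union_left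
      omega⟩
  have h1 := F_union hd hlam Z R hR
  rw [hk, Nat.add_sub_cancel_left] at h1
  have hc : (Z ∪ R).card = Z.card + R.card := Finset.card_union_of_disjoint hR.symm
  have hl : 0 < 1 + lam := by linarith
  have ht0 : 0 < t := by linarith
  have hF := (F_pos hlam d Z).le
  have h2 : ((1 + lam) / t) ^ k ≤ 1 := pow_le_one₀ (by positivity) ((div_le_one ht0).2 ht)
  unfold Ps
  rw [hk, hc]
  calc (q * (1 + lam)) ^ (Z.card + R.card) * F lam d (Z ∪ R) / t ^ (d Z + k)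
      = (q ^ (Z.card + R.card) * (1 + lam) ^ Z.card / t ^ (d Z + k)) *
          (F lam d (Z ∪ R) * (1 + lam) ^ R.card) := by
        rw [mul_pow, pow_add (1 + lam)]
        ring
    _ ≤ (q ^ (Z.card + R.card) * (1 + lam) ^ Z.card / t ^ (d Z + k)) *
          ((1 + lam) ^ k * F lam d Z) := mul_le_mul_of_nonneg_left h1 (by positivity)
    _ = (q ^ R.card * ((q * (1 + lam)) ^ Z.card * F lam d Z / t ^ d Z)) *
          ((1 + lam) / t) ^ k := by
        rw [mul_pow, pow_add q, pow_add t, div_pow]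
        field_simp
    _ ≤ (q ^ R.card * ((q * (1 + lam)) ^ Z.card * F lam d Z / t ^ d Z)) * 1 :=
        mul_le_mul_of_nonneg_left h2 (by positivity)
    _ = _ := mul_one _

/-- Density. `T` minimises `Ps s` with `s = rho ^ 2 * (1 + lam)`. From `Ps T ≤ Ps Z` and `F_union`
(for `R = Z \ T`, `k = d Z - d T`): `t ^ k ≤ s ^ |R| * (1+lam)^(k-|R|)`, i.e.
`(t/(1+lam))^k ≤ rho ^ (2 |R|)`, and `P ^ 2 ≤ t / (1+lam)`, so `P ^ (2k) ≤ rho ^ (2|R|)`; take
square roots. -/
theorem dens {E : Type*} [Fintype E] [DecidableEq E] {d : Finset E → ℕ} (hd : Nul d)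
    {rho t lam P : ℝ} (hP : 0 ≤ P) (hrho : 1 < rho) (hlam : 0 < lam)
    (ht0 : 0 < t) (ht : P ^ 2 * (1 + lam) ≤ t)
    {T : Finset E}
    (hT : ∀ S : Finset E, Ps (rho ^ 2 * (1 + lam)) t lam d T ≤ Ps (rho ^ 2 * (1 + lam)) t lam d S)
    {Z : Finset E} (hZ : T ⊆ Z) :
    P ^ (d Z - d T) ≤ rho ^ (Z \ T).card := by
  obtain ⟨k, hk⟩ : ∃ k, d Z = d T + k :=
    ⟨d Z - d T, by
      have := hd.mono T Z hZ
      omega⟩
  have hTR : T ∪ (Z \ T) = Z := Finset.union_sdiff_of_subset hZ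
  have h1 := F_union hd hlam T (Z \ T) Finset.sdiff_disjoint
  have hc : Z.card = (Z \ T).card + T.card := (Finset.card_sdiff_add_card_eq_card hZ).symm
  rw [hTR, hk, Nat.add_sub_cancel_left] at h1
  rw [hk, Nat.add_sub_cancel_left]
  have h2 := hT Z
  unfold Ps at h2
  rw [hk, hc] at h2
  set r := (Z \ T).card with hr
  have hl : 0 < 1 + lam := by linarith
  have hFT := F_pos hlam d T
  have hFZ := F_pos hlam d Z
  have hs0 : 0 < rho ^ 2 * (1 + lam) := by positivity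
  rw [div_le_div_iff₀ (by positivity) (by positivity)] at h2
  have h3 : F lam d T * t ^ k ≤ (rho ^ 2 * (1 + lam)) ^ r * F lam d Z := by
    have h4 : 0 < (rho ^ 2 * (1 + lam)) ^ T.card * t ^ d T := by positivity
    refine le_of_mul_le_mul_left ?_ h4
    calc (rho ^ 2 * (1 + lam)) ^ T.card * t ^ d T * (F lam d T * t ^ k)
        = (rho ^ 2 * (1 + lam)) ^ T.card * F lam d T * t ^ (d T + k) := by
          rw [pow_add]
          ring
      _ ≤ (rho ^ 2 * (1 + lam)) ^ (r + T.card) * F lam d Z * t ^ d T := h2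
      _ = _ := by
          rw [pow_add]
          ring
  have h5 : t ^ k ≤ rho ^ (2 * r) * (1 + lam) ^ k := by
    have h6 : 0 < F lam d T * (1 + lam) ^ r := by positivity
    refine le_of_mul_le_mul_left ?_ h6
    calc F lam d T * (1 + lam) ^ r * t ^ k = (F lam d T * t ^ k) * (1 + lam) ^ r := by ring
      _ ≤ ((rho ^ 2 * (1 + lam)) ^ r * F lam d Z) * (1 + lam) ^ r :=
          mul_le_mul_of_nonneg_right h3 (by positivity)
      _ = (rho ^ 2 * (1 + lam)) ^ r * (F lam d Z * (1 + lam) ^ r) := by ring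
      _ ≤ (rho ^ 2 * (1 + lam)) ^ r * ((1 + lam) ^ k * F lam d T) :=
          mul_le_mul_of_nonneg_left h1 (by positivity)
      _ = _ := by
          rw [mul_pow, pow_mul]
          ring
  have h7 : (P ^ 2 * (1 + lam)) ^ k ≤ t ^ k := pow_le_pow_left₀ (by positivity) ht k
  have h8 : P ^ (2 * k) ≤ rho ^ (2 * r) := by
    have h9 : 0 < (1 + lam) ^ k := by positivity
    refine le_of_mul_le_mul_right ?_ h9
    calc P ^ (2 * k) * (1 + lam) ^ k = (P ^ 2 * (1 + lam)) ^ k := by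
          rw [mul_pow, pow_mul]
      _ ≤ _ := h7.trans h5
  have h10 : (P ^ k) ^ 2 ≤ (rho ^ r) ^ 2 := by
    rw [← pow_mul, ← pow_mul, mul_comm k, mul_comm r]
    exact h8
  exact (pow_le_pow_iff_left₀ (by positivity) (by positivity) two_ne_zero).1 h10

end FB9
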