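import Pool.Agent.W_fb9763_h19.Defs

set_option autoImplicit false

namespace FB9

open Finset

/-- Rank-nullity for the restriction of a linear map to a subspace. -/
theorem codeNul_fr {K V V' : Type*} [Field K] [AddCommGroup V] [Module K V]
    [FiniteDimensional K V] [AddCommGroup V'] [Module K V'] (f : V →ₗ[K] V')
    (W : Submodule K V) :
    Module.finrank K (W.map f) + Module.finrank K ↥(W ⊓ LinearMap.ker f) =
      Module.finrank K W := by
  have h := LinearMap.finrank_range_add_finrank_ker (f.domRestrict W)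
  rw [LinearMap.range_domRestrict] at h
  have h2 : (LinearMap.ker (f.domRestrict W)).map W.subtype = W ⊓ LinearMap.ker f := by
    ext x
    simp only [Submodule.mem_map, LinearMap.mem_ker, Submodule.mem_inf]
    constructor
    · rintro ⟨y, hy, rfl⟩
      exact ⟨y.2, hy⟩
    · rintro ⟨h1, h2⟩
      exact ⟨⟨x, h1⟩, h2, rfl⟩
  have h3 := Submodule.finrank_map_subtype_eq W (LinearMap.ker (f.domRestrict W))
  rw [h2] at h3
  rw [h3]
  exact h

theorem codeNul_mono {E : Type*} {p : ℕ} (L : Submodule (ZMod p) (E → ZMod p))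
    {S T : Finset E} (h : S ⊆ T) : sub L S ≤ sub L T := by
  intro x hx
  exact ⟨hx.1, fun e he => hx.2 e fun h2 => he (h h2)⟩

/-- `off Z` as a linear map. -/
def codeNul_off {E : Type*} [DecidableEq E] {p : ℕ} (Z : Finset E) :
    (E → ZMod p) →ₗ[ZMod p] (E → ZMod p) where
  toFun := off Z
  map_add' := by
    intro a b
    ext e
    simp only [off, Pi.add_apply]
    split_ifs <;> simp
  map_smul' := by
    intro c a
    ext e
    simp only [off, Pi.smul_apply, RingHom.id_apply]
    split_ifs <;> simp

theorem codeNul_ker {E : Type*} [DecidableEq E] {p : ℕ}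
    (L : Submodule (ZMod p) (E → ZMod p)) {T Z : Finset E} (h : T ⊆ Z) :
    sub L Z ⊓ LinearMap.ker (codeNul_off T) = sub L T := by
  ext x
  rw [Submodule.mem_inf, LinearMap.mem_ker]
  constructor
  · rintro ⟨h1, h2⟩
    refine ⟨h1.1, fun e he => ?_⟩
    have h3 := congrFun h2 e
    change off T x e = 0 at h3
    simpa only [off, if_neg he] using h3
  · intro hx
    refine ⟨codeNul_mono L h hx, ?_⟩
    funext e
    change off T x e = 0
    by_cases he : e ∈ T
    · simp only [off, if_pos he]
    · simp only [off, if_neg he, hx.2 e he]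

theorem codeNul_mem_map {E : Type*} [Fintype E] [DecidableEq E] {p : ℕ}
    (L : Submodule (ZMod p) (E → ZMod p)) {T Z : Finset E} {g : E → ZMod p}
    (hg : IsW L T g) (hs : supp g ⊆ Z) (h : T ⊆ Z) : g ∈ (sub L Z).map (codeNul_off T) := by
  obtain ⟨x, hx, rfl⟩ := hg
  refine ⟨x, ⟨hx, fun e he => ?_⟩, rfl⟩
  have h1 : e ∉ supp (off T x) := fun h2 => he (hs h2)
  rw [mem_supp, not_not] at h1
  have h2 : e ∉ T := fun h3 => he (h h3)
  simpa only [off, if_neg h2] using h1

theorem codeNul_of_mem_map {E : Type*} [Fintype E] [DecidableEq E] {p : ℕ}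
    (L : Submodule (ZMod p) (E → ZMod p)) {T Z : Finset E} {g : E → ZMod p}
    (hg : g ∈ (sub L Z).map (codeNul_off T)) : IsW L T g ∧ supp g ⊆ Z \ T := by
  obtain ⟨x, hx, rfl⟩ := hg
  refine ⟨⟨x, hx.1, rfl⟩, fun e he => ?_⟩
  rw [mem_supp] at he
  change off T x e ≠ 0 at he
  have h1 : e ∉ T := by
    intro h
    simp only [off, if_pos h] at he
    exact he rfl
  simp only [off, if_neg h1] at he
  rw [Finset.mem_sdiff]
  refine ⟨?_, h1⟩
  by_contra h2
  exact he (hx.2 e h2)

theorem codeNul_rank {E : Type*} [Fintype E] [DecidableEq E] {p : ℕ} [Fact p.Prime]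
    (L : Submodule (ZMod p) (E → ZMod p)) {T Z : Finset E} (h : T ⊆ Z) :
    Module.finrank (ZMod p) ((sub L Z).map (codeNul_off T)) + dL L T = dL L Z := by
  have h1 := codeNul_fr (codeNul_off T) (sub L Z)
  rw [codeNul_ker L h] at h1
  exact h1

/-- The nullity function of a code satisfies `Nul`. Monotonicity: `sub L S ≤ sub L T`. Insert:
the linear functional `h ↦ h e` on `sub L (insert e S)` has kernel `sub L S`. Supermodularity:
`sub L S ⊓ sub L T = sub L (S ∩ T)`, `sub L S ⊔ sub L T ≤ sub L (S ∪ T)` and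
`Submodule.finrank_sup_add_finrank_inf_eq`. -/
theorem nul_dL {E : Type*} [Fintype E] [DecidableEq E] {p : ℕ} [Fact p.Prime]
    (L : Submodule (ZMod p) (E → ZMod p)) : Nul (dL L) where
  mono := fun S T h => Submodule.finrank_mono (codeNul_mono L h)
  insert_le := by
    intro S e
    by_cases he : e ∈ S
    · rw [Finset.insert_eq_self.2 he]
      exact Nat.le_succ _
    have h1 := codeNul_fr (LinearMap.proj (R := ZMod p) (φ := fun _ : E => ZMod p) e)
      (sub L (insert e S))
    have h2 : sub L (insert e S) ⊓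
        LinearMap.ker (LinearMap.proj (R := ZMod p) (φ := fun _ : E => ZMod p) e) = sub L S := by
      ext x
      rw [Submodule.mem_inf, LinearMap.mem_ker, LinearMap.proj_apply]
      constructor
      · rintro ⟨h1, h2⟩
        refine ⟨h1.1, fun a ha => ?_⟩
        by_cases hae : a = e
        · rw [hae, h2]
        · exact h1.2 a fun h3 => (Finset.mem_insert.1 h3).elim hae ha
      · intro hx
        exact ⟨codeNul_mono L (Finset.subset_insert e S) hx, hx.2 e he⟩
    rw [h2] at h1
    have h3 := Submodule.finrank_le ((sub L (insert e S)).map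
      (LinearMap.proj (R := ZMod p) (φ := fun _ : E => ZMod p) e))
    rw [Module.finrank_self] at h3
    simp only [dL]
    omega
  super := by
    intro S T
    have h1 := Submodule.finrank_sup_add_finrank_inf_eq (sub L S) (sub L T)
    have h2 : sub L S ⊔ sub L T ≤ sub L (S ∪ T) :=
      sup_le (codeNul_mono L Finset.subset_union_left) (codeNul_mono L Finset.subset_union_right)
    have h3 : sub L S ⊓ sub L T ≤ sub L (S ∩ T) := by
      intro x hx
      rw [Submodule.mem_inf] at hx
      refine ⟨hx.1.1, fun e he => ?_⟩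
      by_cases h4 : e ∈ S
      · exact hx.2.2 e fun h5 => he (Finset.mem_inter.2 ⟨h4, h5⟩)
      · exact hx.1.2 e h4
    have h4 := Submodule.finrank_mono h2
    have h5 := Submodule.finrank_mono h3
    simp only [dL]
    omega

/-- For `A` disjoint from `Z`: `d (Z ∪ A) = d Z` iff the punctured code has no nonzero word inside
`A`. (The map `off Z` on `sub L (Z ∪ A)` has kernel `sub L Z` and its image consists of the words
`g` with `IsW L Z g`, `supp g ⊆ A`.) -/
theorem dL_eq_iff {E : Type*} [Fintype E] [DecidableEq E] {p : ℕ} [Fact p.Prime]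
    (L : Submodule (ZMod p) (E → ZMod p)) {Z A : Finset E} (hA : Disjoint A Z) :
    dL L (Z ∪ A) = dL L Z ↔ ∀ g : E → ZMod p, IsW L Z g → supp g ⊆ A → g = 0 := by
  have h1 := codeNul_rank L (Finset.subset_union_left : Z ⊆ Z ∪ A)
  constructor
  · intro h g hg hs
    have h2 : Module.finrank (ZMod p) ((sub L (Z ∪ A)).map (codeNul_off Z)) = 0 := by omega
    have h3 : (sub L (Z ∪ A)).map (codeNul_off Z) = ⊥ := Submodule.finrank_eq_zero.1 h2
    have h4 := codeNul_mem_map L hg (hs.trans Finset.subset_union_right)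
      (Finset.subset_union_left : Z ⊆ Z ∪ A)
    rw [h3] at h4
    exact (Submodule.mem_bot _).1 h4
  · intro h
    have h3 : (sub L (Z ∪ A)).map (codeNul_off Z) = ⊥ := by
      rw [Submodule.eq_bot_iff]
      intro g hg
      obtain ⟨h4, h5⟩ := codeNul_of_mem_map L hg
      refine h g h4 (h5.trans ?_)
      intro e he
      rw [Finset.mem_sdiff, Finset.mem_union] at he
      exact he.1.resolve_left he.2
    have h2 : Module.finrank (ZMod p) ((sub L (Z ∪ A)).map (codeNul_off Z)) = 0 :=
      Submodule.finrank_eq_zero.2 h3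
    omega

/-- A circuit of the punctured code carries, up to scalars, exactly one word, and it has full
support. (`finrank` of the space of words inside `A` is `1`; a nonzero word inside `A` has support
`A` by minimality and `dL_eq_iff`.) -/
theorem circ_word {E : Type*} [Fintype E] [DecidableEq E] {p : ℕ} [Fact p.Prime]
    (L : Submodule (ZMod p) (E → ZMod p)) {Z A : Finset E} (hA : Circ (dL L) Z A) :
    ∃ g : E → ZMod p, IsW L Z g ∧ supp g = A ∧
      ∀ g' : E → ZMod p, IsW L Z g' → supp g' ⊆ A → ∃ c : ZMod p, g' = c • g := by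
  obtain ⟨h1, h2, h3⟩ := hA
  have h4 := codeNul_rank L (Finset.subset_union_left : Z ⊆ Z ∪ A)
  have h5 : Module.finrank (ZMod p) ((sub L (Z ∪ A)).map (codeNul_off Z)) = 1 := by omega
  obtain ⟨⟨g, hg⟩, hg0, hg1⟩ := finrank_eq_one_iff'.1 h5
  have hg2 : g ≠ 0 := fun h => hg0 (Subtype.ext h)
  obtain ⟨hg3, hg4⟩ := codeNul_of_mem_map L hg
  have hg5 : supp g ⊆ A := by
    intro e he
    have h6 := hg4 he
    rw [Finset.mem_sdiff, Finset.mem_union] at h6
    exact h6.1.resolve_left h6.2
  refine ⟨g, hg3, ?_, ?_⟩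
  · by_contra hne
    have h6 : supp g ⊂ A := lt_of_le_of_ne hg5 hne
    have h7 := h3 _ h6
    rw [dL_eq_iff L (Finset.disjoint_of_subset_left hg5 h1)] at h7
    exact hg2 (h7 g hg3 subset_rfl)
  · intro g' h6 h7
    have h8 := codeNul_mem_map L h6 (h7.trans Finset.subset_union_right)
      (Finset.subset_union_left : Z ⊆ Z ∪ A)
    obtain ⟨c, hc⟩ := hg1 ⟨g', h8⟩
    exact ⟨c, (congrArg Subtype.val hc).symm⟩

/-- The number of words of the code punctured at `T` which are supported in `Z ⊇ T` is at most
`p ^ (d Z - d T)`. (They form the image of `sub L Z` under the linear map `off T`, whose kernel on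
`sub L Z` is `sub L T`.) -/
theorem card_words {E : Type*} [Fintype E] [DecidableEq E] {p : ℕ} [Fact p.Prime]
    (L : Submodule (ZMod p) (E → ZMod p)) {T Z : Finset E} (hZ : T ⊆ Z)
    (W : Finset (E → ZMod p)) (hW : ∀ g ∈ W, IsW L T g ∧ supp g ⊆ Z) :
    W.card ≤ p ^ (dL L Z - dL L T) := by
  have h1 := codeNul_rank L hZ
  have h2 : Module.finrank (ZMod p) ((sub L Z).map (codeNul_off T)) = dL L Z - dL L T := by
    omega
  have h3 : Nat.card ((sub L Z).map (codeNul_off T)) = p ^ (dL L Z - dL L T) := by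
    rw [← h2, Module.natCard_eq_pow_finrank (K := ZMod p), Nat.card_zmod]
  rw [← h3]
  have h4 : (W : Set (E → ZMod p)) ⊆ ((sub L Z).map (codeNul_off T) : Set (E → ZMod p)) := by
    intro g hg
    exact codeNul_mem_map L (hW g hg).1 (hW g hg).2 hZ
  have h5 := Set.ncard_le_ncard h4 (Set.toFinite _)
  rw [Set.ncard_coe_finset] at h5
  exact h5

end FB9
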