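import Pool.Agent.W_fb9763_h19.Defs
import Pool.Agent.W_fb9763_h88.Ros

set_option autoImplicit false

namespace FB9

open Finset

/-- LOCAL LEMMA by Rosenfeld's counting argument. For `S : Finset E` let `N S` be the number of
`a : E → ZMod p` with `a e ≠ 0` for `e ∈ S`, `a e = 0` for `e ∉ S`, such that every `h ∈ H` with
`supp h ⊆ S` satisfies `∃ e, h e ≠ 0 ∧ h e = a e`. Claim: for `e ∉ S`,
`N (insert e S) ≥ (p-1) (1-de) N S` (strong induction on `|S|`). Proof: the extensions of good
functions on `S` by a nonzero value at `e` number `(p-1) N S`; a bad extension `a` leaves some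
`h ∈ H` with `h e ≠ 0`, `supp h ⊆ insert e S` uncovered; for fixed `h` the number of bad extensions
is at most `(p-2)^|supp h| * N (insert e S \ supp h)` (on `supp h` the values avoid `0` and `h`,
outside the restriction is good), and `N (S \ supp h) * ((p-1)(1-de))^(|supp h| - 1) ≤ N S` by the
induction hypothesis applied `|supp h| - 1` times (remove the elements of `supp h \ {e}` one by one;
the induction hypothesis is used for proper subsets). So
`bad ≤ ∑_h (p-2)^|h| N S / ((p-1)(1-de))^(|h|-1) ≤ (p-1)(1-de) N S ∑_h x^|h| ≤ (p-1)(1-de) N S de`, and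
`(p-1) N S - (p-1)(1-de) de N S ≥ (p-1)(1-de) N S`. As `N ∅ = 1` (`H` has no zero word) and `p ≥ 2`,
`N univ > 0`. -/
theorem rosen {E : Type*} [Fintype E] [DecidableEq E] {p : ℕ} [Fact p.Prime]
    {x de : ℝ} (hx : 0 < x) (hde : 0 < de) (hde1 : de < 1)
    (hpx : (p : ℝ) - 2 ≤ x * (1 - de) * ((p : ℝ) - 1))
    (H : Finset (E → ZMod p)) (hH : ∀ h ∈ H, h ≠ 0)
    (hsum : ∀ e : E, ∑ h ∈ H.filter (fun h => h e ≠ 0), x ^ (supp h).card ≤ de) :
    ∃ a : E → ZMod p, (∀ e, a e ≠ 0) ∧ ∀ h ∈ H, ∃ e, h e ≠ 0 ∧ h e = a e := by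
  classical
  have hc : Fintype.card (ZMod p) = p := ZMod.card p
  apply Pool.Agent.FB9763h88.rosenfeld H hH x de hx hde.le hde1
  · rw [hc]
    calc (p : ℝ) - 2 ≤ x * (1 - de) * ((p : ℝ) - 1) := hpx
      _ = _ := by ring
  · intro e
    exact hsum e

end FB9
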