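import Pool.Agent.W_fb9763_h19.Total
import Pool.Agent.W_fb9763_h19.Rosen

set_option autoImplicit false

namespace FB9

open Finset

/-- For a minimiser `T` the punctured code has the covering property: apply `rosen` to the finset of
all irreducible words (`Irr L T`); for `e ∈ T` the sum is empty (words vanish on `T`), for `e ∉ T` it
is `total`. A nonzero punctured word `g` contains an irreducible `g'` (`exists_irr`), and
`g' e ≠ 0`, `Part g' g` give `g e = g' e = a e`. -/
theorem cov_off {E : Type*} [Fintype E] [DecidableEq E] {p : ℕ} [Fact p.Prime]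
    {x de rho lam t : ℝ} (hP : Par p x de rho lam t)
    (L : Submodule (ZMod p) (E → ZMod p)) {T : Finset E}
    (hT : ∀ S : Finset E, Ps (rho ^ 2 * (1 + lam)) t lam (dL L) T ≤
      Ps (rho ^ 2 * (1 + lam)) t lam (dL L) S) :
    ∃ a : E → ZMod p, (∀ e, a e ≠ 0) ∧
      ∀ g : E → ZMod p, IsW L T g → g ≠ 0 → ∃ e, g e ≠ 0 ∧ g e = a e := by
  classical
  obtain ⟨a, ha, hcov⟩ := rosen hP.x0 hP.de0 hP.de1 hP.px
    (Finset.univ.filter (fun h : E → ZMod p => Irr L T h))
    (fun h hh => (Finset.mem_filter.mp hh).2.2.1)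
    (by
      intro e
      by_cases he : e ∈ T
      · rw [Finset.sum_eq_zero]
        · exact hP.de0.le
        · intro h hh
          rw [Finset.mem_filter, Finset.mem_filter] at hh
          obtain ⟨⟨_, ⟨h', _, hh'⟩, _⟩, h2⟩ := hh
          exact absurd (by rw [hh', off, if_pos he]) h2
      · refine le_trans (le_of_eq ?_) (total hP L hT he)
        apply Finset.sum_congr _ (fun _ _ => rfl)
        ext h
        simp [Iset])
  refine ⟨a, ha, fun g hg hg0 => ?_⟩
  obtain ⟨g', hg', hp⟩ := exists_irr L hg hg0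
  obtain ⟨e, he0, he⟩ := hcov g' (Finset.mem_filter.mpr ⟨Finset.mem_univ _, hg'⟩)
  rcases hp e with h1 | h1
  · exact absurd h1 he0
  · exact ⟨e, by rw [← h1]; exact he0, by rw [← h1]; exact he⟩

/-- Dense codes: a set `S` with `d S = dim L` is not a minimiser. With `n = dim L ≥ 1`,
`|S| ≥ C n` (the support of `L = sub L S` is inside `S`), `F S = (1+lam)^(|E|-|S|)` (all `W` are
counted), so `Ps S = (1+lam)^|E| rho^(2|S|) / t^n ≥ (1+lam)^|E| (rho^(2C)/t)^n > (1+lam)^|E| ≥ F ∅ =
Ps ∅` (`d ∅ = 0`). -/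
theorem min_lt {E : Type*} [Fintype E] [DecidableEq E] {p : ℕ} [Fact p.Prime]
    {rho lam t : ℝ} (hrho : 1 < rho) (hlam : 0 < lam) (ht : 0 < t) {C : ℕ}
    (hC : t < rho ^ (2 * C))
    (L : Submodule (ZMod p) (E → ZMod p)) (hL : L ≠ ⊥)
    (hdense : ∀ D : Submodule (ZMod p) (E → ZMod p), D ≤ L →
      ∀ S : Finset E, (∀ h ∈ D, ∀ e, e ∉ S → h e = 0) →
        C * Module.finrank (ZMod p) D ≤ S.card)
    {T : Finset E}
    (hT : ∀ S : Finset E, Ps (rho ^ 2 * (1 + lam)) t lam (dL L) T ≤
      Ps (rho ^ 2 * (1 + lam)) t lam (dL L) S) :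
    sub L T < L := by
  classical
  have hle : ∀ S : Finset E, sub L S ≤ L := fun S h hh => hh.1
  refine lt_of_le_of_ne (hle T) fun heq => ?_
  have hsupp : ∀ h ∈ L, ∀ e, e ∉ T → h e = 0 := by
    intro h hh
    rw [← heq] at hh
    exact hh.2
  have hd : ∀ S : Finset E, T ⊆ S → dL L S = Module.finrank (ZMod p) L := by
    intro S hS
    have : sub L S = L := by
      apply le_antisymm (hle S)
      intro h hh
      exact ⟨hh, fun e he => hsupp h hh e (fun h' => he (hS h'))⟩
    rw [dL, this]
  have hn : 0 < Module.finrank (ZMod p) L := by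
    rw [Module.finrank_pos_iff_exists_ne_zero]
    obtain ⟨h, hh, hne⟩ := Submodule.exists_mem_ne_zero_of_ne_bot hL
    exact ⟨⟨h, hh⟩, fun h0 => hne (congrArg Subtype.val h0)⟩
  have hcard : C * Module.finrank (ZMod p) L ≤ T.card := hdense L le_rfl T hsupp
  set n := Module.finrank (ZMod p) L with hnn
  have hF : F lam (dL L) T = (1 + lam) ^ (Tᶜ).card := by
    rw [F, Finset.filter_true_of_mem]
    · have := Finset.sum_pow_mul_eq_add_pow lam 1 (Tᶜ)
      simp only [one_pow, mul_one] at this
      rw [this, add_comm]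
    · intro W _
      rw [hd _ Finset.subset_union_left, hd T (Finset.Subset.refl T)]
  have hF0 : F lam (dL L) ∅ ≤ (1 + lam) ^ (Fintype.card E) := by
    have h1 : F lam (dL L) ∅ ≤ ∑ W ∈ ((∅ : Finset E)ᶜ).powerset, lam ^ W.card := by
      rw [F]
      exact Finset.sum_le_sum_of_subset_of_nonneg (Finset.filter_subset _ _)
        (fun W _ _ => pow_nonneg hlam.le _)
    have h2 := Finset.sum_pow_mul_eq_add_pow lam 1 ((∅ : Finset E)ᶜ)
    simp only [one_pow, mul_one] at h2
    rw [h2, Finset.card_compl, Finset.card_empty, Nat.sub_zero, add_comm] at h1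
    exact h1
  have hd0 : dL L ∅ = 0 := by
    have : sub L (∅ : Finset E) = ⊥ := by
      rw [eq_bot_iff]
      intro h hh
      rw [Submodule.mem_bot]
      funext e
      exact hh.2 e (Finset.notMem_empty e)
    rw [dL, this, finrank_bot]
  have hl1 : (0 : ℝ) < 1 + lam := by linarith
  have key := hT ∅
  rw [Ps, Ps, hF, hd T (Finset.Subset.refl T), hd0, Finset.card_empty, pow_zero, pow_zero,
    one_mul, div_one, div_le_iff₀ (pow_pos ht _), mul_pow, mul_assoc, ← pow_add,
    Finset.card_add_card_compl] at key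
  have key2 : (rho ^ 2) ^ T.card ≤ t ^ n := by
    have h1 : (rho ^ 2) ^ T.card * (1 + lam) ^ Fintype.card E ≤
        t ^ n * (1 + lam) ^ Fintype.card E := by
      refine key.trans ?_
      rw [mul_comm (t ^ n)]
      exact mul_le_mul_of_nonneg_right hF0 (pow_nonneg ht.le _)
    exact le_of_mul_le_mul_right h1 (pow_pos hl1 _)
  have key3 : t ^ n < (rho ^ (2 * C)) ^ n := pow_lt_pow_left₀ hC ht.le hn.ne'
  have key4 : (rho ^ (2 * C)) ^ n ≤ (rho ^ 2) ^ T.card := by
    rw [← pow_mul, ← pow_mul]
    apply pow_le_pow_right₀ hrho.le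
    calc 2 * C * n = 2 * (C * n) := by ring
      _ ≤ 2 * T.card := Nat.mul_le_mul_left 2 hcard
  linarith

/-- THE COVERING THEOREM, by strong induction on `finrank L`. If `L = ⊥` take `a = 1`. Otherwise
take a minimiser `T` (`exists_min`), `sub L T < L` by `min_lt` has smaller dimension and is dense, so
there is `a₁` for it; `cov_off` gives `a₂`. Let `a = a₁` on `T` and `a = a₂` off `T`. For `h ∈ L`,
`h ≠ 0`: if `off T h ≠ 0` it is covered off `T` (`g e ≠ 0` implies `e ∉ T`), otherwise
`h ∈ sub L T` and it is covered by `a₁` at some `e` with `h e = a₁ e ≠ 0`, so `e ∈ T`. -/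
theorem cov_dense {p : ℕ} [Fact p.Prime] {x de rho lam t : ℝ} (hP : Par p x de rho lam t)
    {C : ℕ} (hC : t < rho ^ (2 * C)) {E : Type*} [Fintype E] [DecidableEq E]
    (L : Submodule (ZMod p) (E → ZMod p))
    (hdense : ∀ D : Submodule (ZMod p) (E → ZMod p), D ≤ L →
      ∀ S : Finset E, (∀ h ∈ D, ∀ e, e ∉ S → h e = 0) →
        C * Module.finrank (ZMod p) D ≤ S.card) :
    COV L := by
  induction hk : Module.finrank (ZMod p) L using Nat.strong_induction_on generalizing L with
  | _ k ih =>
    by_cases hL : L = ⊥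
    · refine ⟨fun _ => 1, fun _ => one_ne_zero, fun h hh h0 => ?_⟩
      rw [hL, Submodule.mem_bot] at hh
      exact absurd hh h0
    obtain ⟨T, hT⟩ := exists_min (rho ^ 2 * (1 + lam)) t lam (dL L)
    have ht : 0 < t := by
      have h1 := hP.t1
      have h2 : (0 : ℝ) < (p : ℝ) ^ 2 * (1 + lam) := by
        have h3 : (0 : ℝ) < (p : ℝ) := by exact_mod_cast (Fact.out : p.Prime).pos
        have h4 := hP.lam0
        positivity
      linarith
    have hlt := min_lt hP.rho1 hP.lam0 ht hC L hL hdense hT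
    obtain ⟨a₁, ha₁, hc₁⟩ := ih (Module.finrank (ZMod p) (sub L T))
      (by rw [← hk]; exact Submodule.finrank_lt_finrank_of_lt hlt) (sub L T)
      (fun D hD S hS => hdense D (hD.trans hlt.le) S hS) rfl
    obtain ⟨a₂, ha₂, hc₂⟩ := cov_off hP L hT
    refine ⟨fun e => if e ∈ T then a₁ e else a₂ e, ?_, ?_⟩
    · intro e
      by_cases he : e ∈ T
      · simp only [if_pos he]; exact ha₁ e
      · simp only [if_neg he]; exact ha₂ e
    · intro h hh h0
      by_cases hoff : off T h = 0
      · have hv : ∀ e, e ∉ T → h e = 0 := by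
          intro e he
          have := congrFun hoff e
          rw [off, if_neg he] at this
          exact this
        obtain ⟨e, he⟩ := hc₁ h ⟨hh, hv⟩ h0
        have heT : e ∈ T := by
          by_contra hne
          exact ha₁ e (by rw [← he]; exact hv e hne)
        exact ⟨e, by simp only [if_pos heT]; exact he⟩
      · obtain ⟨e, he0, he⟩ := hc₂ (off T h) ⟨h, hh, rfl⟩ hoff
        have heT : e ∉ T := by
          intro hmem
          exact he0 (by rw [off, if_pos hmem])
        refine ⟨e, ?_⟩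
        simp only [if_neg heT]
        rw [← he, off, if_neg heT]

end FB9
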