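import Mathlib

/-!
# MP_fb9763_co (additive basis conjecture): definitions

`d : Finset E → ℕ` is the nullity function of a matroid on the finite set `E`; for a linear code
`L ≤ (E → ZMod p)` it is `d S = dim {h ∈ L : supp h ⊆ S}`.
-/

set_option autoImplicit false

namespace FB9

open Finset

/-- The properties of a nullity function which are used. -/
structure Nul {E : Type*} [DecidableEq E] (d : Finset E → ℕ) : Prop where
  mono : ∀ S T : Finset E, S ⊆ T → d S ≤ d T
  insert_le : ∀ (S : Finset E) (e : E), d (insert e S) ≤ d S + 1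
  super : ∀ S T : Finset E, d S + d T ≤ d (S ∪ T) + d (S ∩ T)

/-- Generating function of the independent sets `W` of the contracted matroid `M / S`. -/
noncomputable def F {E : Type*} [Fintype E] [DecidableEq E] (lam : ℝ) (d : Finset E → ℕ)
    (S : Finset E) : ℝ :=
  ∑ W ∈ (Sᶜ).powerset.filter (fun W => d (S ∪ W) = d S), lam ^ W.card

/-- `A` is a circuit of `M / Z`. -/
def Circ {E : Type*} [DecidableEq E] (d : Finset E → ℕ) (Z A : Finset E) : Prop :=
  Disjoint A Z ∧ d (Z ∪ A) = d Z + 1 ∧ ∀ B : Finset E, B ⊂ A → d (Z ∪ B) = d Z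

/-- The potential. -/
noncomputable def Ps {E : Type*} [Fintype E] [DecidableEq E] (s t lam : ℝ) (d : Finset E → ℕ)
    (S : Finset E) : ℝ :=
  s ^ S.card * F lam d S / t ^ (d S)

/-- `Z` minimises the potential among its supersets. -/
def Good {E : Type*} [Fintype E] [DecidableEq E] (sb t lam : ℝ) (d : Finset E → ℕ)
    (Z : Finset E) : Prop :=
  ∀ S : Finset E, Z ⊆ S → Ps sb t lam d Z ≤ Ps sb t lam d S

/-- `A` is a circuit of `M / Z` and independent in `M / Z'`. -/
def NewC {E : Type*} [DecidableEq E] (d : Finset E → ℕ) (Z' Z A : Finset E) : Prop :=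
  Circ d Z A ∧ d (Z' ∪ A) = d Z'

open scoped Classical in
/-- The circuits of `M / Z` through `e`. -/
noncomputable def circs {E : Type*} [Fintype E] [DecidableEq E] (d : Finset E → ℕ)
    (Z : Finset E) (e : E) : Finset (Finset E) :=
  Finset.univ.filter (fun X => Circ d Z X ∧ e ∈ X)

open scoped Classical in
/-- The circuits of `M / Z` contained in `U`. -/
noncomputable def inCircs {E : Type*} [Fintype E] [DecidableEq E] (d : Finset E → ℕ)
    (Z U : Finset E) : Finset (Finset E) :=
  Finset.univ.filter (fun X => Circ d Z X ∧ X ⊆ U)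

open scoped Classical in
/-- The set of new chords. -/
noncomputable def newcs {E : Type*} [Fintype E] [DecidableEq E] (d : Finset E → ℕ)
    (Z' Z : Finset E) : Finset (Finset E) :=
  Finset.univ.filter (fun A => NewC d Z' Z A)

/-- The members of `D` which meet `X`. -/
def meets {E : Type*} [DecidableEq E] (D : Finset (Finset E)) (X : Finset E) :
    Finset (Finset E) :=
  D.filter (fun A => ¬ Disjoint A X)

theorem mem_circs {E : Type*} [Fintype E] [DecidableEq E] {d : Finset E → ℕ}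
    {Z : Finset E} {e : E} {X : Finset E} : X ∈ circs d Z e ↔ Circ d Z X ∧ e ∈ X := by
  simp [circs]

theorem mem_inCircs {E : Type*} [Fintype E] [DecidableEq E] {d : Finset E → ℕ}
    {Z U : Finset E} {X : Finset E} : X ∈ inCircs d Z U ↔ Circ d Z X ∧ X ⊆ U := by
  simp [inCircs]

theorem mem_newcs {E : Type*} [Fintype E] [DecidableEq E] {d : Finset E → ℕ}
    {Z' Z : Finset E} {A : Finset E} : A ∈ newcs d Z' Z ↔ NewC d Z' Z A := by
  simp [newcs]

theorem mem_meets {E : Type*} [DecidableEq E] {D : Finset (Finset E)} {X A : Finset E} :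
    A ∈ meets D X ↔ A ∈ D ∧ ¬ Disjoint A X := by
  simp [meets]

/-- The conditions on the parameters; below `s = rho ^ 2 * (1 + lam)`,
`sb = rho ^ 4 * (1 + lam)` and `beta = sb / lam`. -/
structure Par (p : ℕ) (x de rho lam t : ℝ) : Prop where
  x0 : 0 < x
  x1 : x < 1
  de0 : 0 < de
  de1 : de < 1
  px : (p : ℝ) - 2 ≤ x * (1 - de) * ((p : ℝ) - 1)
  rho1 : 1 < rho
  lam0 : 0 < lam
  t1 : (p : ℝ) ^ 2 * (1 + lam) ≤ t
  zb : (x * rho ^ 4) * (rho ^ 4 * (1 + lam) / lam) ^ 6 ≤ 1
  k1 : lam / t ≤ (rho ^ 4 * (1 + lam) / lam - 1) / 2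
  k2 : Real.exp (2 * (lam / t) / (rho ^ 4 * (1 + lam) / lam - 1) ^ 2) ≤ rho
  k3 : lam / t ≤ de

/-! ### Codes -/

/-- The words of the code `L` which are supported in `S`. -/
def sub {E : Type*} {p : ℕ} (L : Submodule (ZMod p) (E → ZMod p)) (S : Finset E) :
    Submodule (ZMod p) (E → ZMod p) where
  carrier := {h | h ∈ L ∧ ∀ e, e ∉ S → h e = 0}
  add_mem' := by
    rintro a b ⟨ha, ha'⟩ ⟨hb, hb'⟩
    exact ⟨L.add_mem ha hb, fun e he => by simp [ha' e he, hb' e he]⟩
  zero_mem' := ⟨L.zero_mem, fun _ _ => rfl⟩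
  smul_mem' := by
    rintro c a ⟨ha, ha'⟩
    exact ⟨L.smul_mem c ha, fun e he => by simp [ha' e he]⟩

/-- The nullity function of a code. -/
noncomputable def dL {E : Type*} {p : ℕ} (L : Submodule (ZMod p) (E → ZMod p))
    (S : Finset E) : ℕ :=
  Module.finrank (ZMod p) (sub L S)

/-- Put `0` on `Z`. -/
def off {E : Type*} [DecidableEq E] {p : ℕ} (Z : Finset E) (h : E → ZMod p) : E → ZMod p :=
  fun e => if e ∈ Z then 0 else h e

/-- The words of the punctured code (with `Z` deleted). -/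
def IsW {E : Type*} [DecidableEq E] {p : ℕ} (L : Submodule (ZMod p) (E → ZMod p))
    (Z : Finset E) (g : E → ZMod p) : Prop :=
  ∃ h ∈ L, g = off Z h

/-- The support of a word. -/
def supp {E : Type*} [Fintype E] {p : ℕ} (h : E → ZMod p) : Finset E :=
  Finset.univ.filter (fun e => h e ≠ 0)

/-- `g` is a partial vector of `h`. -/
def Part {E : Type*} {p : ℕ} (g h : E → ZMod p) : Prop := ∀ e, g e = 0 ∨ g e = h e

/-- Irreducible words of the punctured code. -/
def Irr {E : Type*} [DecidableEq E] {p : ℕ} (L : Submodule (ZMod p) (E → ZMod p))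
    (T : Finset E) (h : E → ZMod p) : Prop :=
  IsW L T h ∧ h ≠ 0 ∧ ∀ g, IsW L T g → Part g h → g = 0 ∨ g = h

open scoped Classical in
/-- The words which are counted in the main induction. -/
noncomputable def Wset {E : Type*} [Fintype E] [DecidableEq E] {p : ℕ} [NeZero p]
    (L : Submodule (ZMod p) (E → ZMod p)) (T Z' Z : Finset E) : Finset (E → ZMod p) :=
  Finset.univ.filter (fun h => Irr L T h ∧ (∃ e ∈ Z, h e ≠ 0) ∧
    ∀ A : Finset E, A ⊆ supp h \ Z → Circ (dL L) Z A → dL L (T ∪ A) = dL L T →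
      dL L (Z' ∪ A) = dL L Z')

open scoped Classical in
/-- The irreducible words with `h e ≠ 0`. -/
noncomputable def Iset {E : Type*} [Fintype E] [DecidableEq E] {p : ℕ} [NeZero p]
    (L : Submodule (ZMod p) (E → ZMod p)) (T : Finset E) (e : E) : Finset (E → ZMod p) :=
  Finset.univ.filter (fun h => Irr L T h ∧ h e ≠ 0)

/-- The covering property. -/
def COV {E : Type*} {p : ℕ} (L : Submodule (ZMod p) (E → ZMod p)) : Prop :=
  ∃ a : E → ZMod p, (∀ e, a e ≠ 0) ∧ ∀ h ∈ L, h ≠ 0 → ∃ e, h e = a e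

theorem mem_supp {E : Type*} [Fintype E] {p : ℕ} {h : E → ZMod p} {e : E} :
    e ∈ supp h ↔ h e ≠ 0 := by
  simp [supp]

theorem mem_sub {E : Type*} {p : ℕ} {L : Submodule (ZMod p) (E → ZMod p)} {S : Finset E}
    {h : E → ZMod p} : h ∈ sub L S ↔ h ∈ L ∧ ∀ e, e ∉ S → h e = 0 := Iff.rfl

end FB9
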