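import Mathlib

set_option autoImplicit false

namespace FB9

open Finset

/-- The weight of the sets `J ⊆ D` containing `K`. -/
theorem Hyper_K {ι : Type*} [DecidableEq ι] (D K : Finset ι) (hK : K ⊆ D) (th : ℝ) :
    ∑ J ∈ D.powerset.filter (fun J => K ⊆ J), th ^ J.card * (1 - th) ^ (D.card - J.card) =
      th ^ K.card := by
  have h1 : ∑ J ∈ D.powerset.filter (fun J => K ⊆ J),
      th ^ J.card * (1 - th) ^ (D.card - J.card) =
      ∑ J ∈ (D \ K).powerset, th ^ K.card * (th ^ J.card * (1 - th) ^ ((D \ K).card - J.card)) := by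
    refine Finset.sum_nbij' (fun J => J \ K) (fun J => K ∪ J) ?_ ?_ ?_ ?_ ?_
    · intro J hJ
      rw [Finset.mem_filter, Finset.mem_powerset] at hJ
      exact Finset.mem_powerset.2 (Finset.sdiff_subset_sdiff hJ.1 (Finset.Subset.refl K))
    · intro J hJ
      rw [Finset.mem_powerset] at hJ
      rw [Finset.mem_filter, Finset.mem_powerset]
      exact ⟨Finset.union_subset hK (hJ.trans Finset.sdiff_subset), Finset.subset_union_left⟩
    · intro J hJ
      rw [Finset.mem_filter] at hJ
      exact Finset.union_sdiff_of_subset hJ.2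
    · intro J hJ
      rw [Finset.mem_powerset] at hJ
      have hd : Disjoint K J := (Finset.disjoint_of_subset_left hJ Finset.sdiff_disjoint).symm
      exact Finset.union_sdiff_cancel_left hd
    · intro J hJ
      rw [Finset.mem_filter, Finset.mem_powerset] at hJ
      have e1 : (J \ K).card + K.card = J.card := Finset.card_sdiff_add_card_eq_card hJ.2
      have e2 : (D \ K).card + K.card = D.card := Finset.card_sdiff_add_card_eq_card hK
      have e3 : D.card - J.card = (D \ K).card - (J \ K).card := by omega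
      rw [e3, ← e1, pow_add]
      ring
  rw [h1, ← Finset.mul_sum, Finset.sum_pow_mul_eq_add_pow]
  simp

/-- Random subset argument. For `J ⊆ D` give `J` the weight `th ^ |J| * (1 - th) ^ (|D| - |J|)`.
The weights are nonnegative and sum to `1`, the weighted sum of `|J|` is `th * |D|`
(`= ∑_{i ∈ D}` of the weight of `{J : i ∈ J}`), and for `K ⊆ D` the weight of `{J : K ⊆ J}` is
`th ^ |K|` (all three from `Finset.prod_add` or by induction on `D`;
e.g. `∑ J ∈ D.powerset, with K ⊆ J, ... = th ^ |K| * (th + (1 - th)) ^ (|D| - |K|)`). Sum the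
hypothesis `|J| ≤ w + #{X : phi X ⊆ J}` over all `J` with these weights. -/
theorem hyper {ι κ : Type*} [DecidableEq ι] (D : Finset ι) (Xs : Finset κ)
    (phi : κ → Finset ι) (hphi : ∀ X ∈ Xs, phi X ⊆ D) (w : ℕ)
    (h : ∀ J ⊆ D, J.card ≤ w + (Xs.filter (fun X => phi X ⊆ J)).card)
    (th : ℝ) (h0 : 0 ≤ th) (h1 : th ≤ 1) :
    th * D.card ≤ w + ∑ X ∈ Xs, th ^ (phi X).card := by
  set W : Finset ι → ℝ := fun J => th ^ J.card * (1 - th) ^ (D.card - J.card) with hW
  have hW0 : ∀ J, 0 ≤ W J := fun J => mul_nonneg (pow_nonneg h0 _) (pow_nonneg (by linarith) _)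
  have hW1 : ∑ J ∈ D.powerset, W J = 1 := by
    have := Hyper_K D ∅ (Finset.empty_subset _) th
    simp only [Finset.empty_subset, Finset.filter_true, Finset.card_empty, pow_zero] at this
    exact this
  have hWK : ∀ K ⊆ D, ∑ J ∈ D.powerset, W J * (if K ⊆ J then (1 : ℝ) else 0) = th ^ K.card := by
    intro K hK
    rw [← Hyper_K D K hK th, Finset.sum_filter]
    refine Finset.sum_congr rfl fun J _ => ?_
    split_ifs <;> simp [hW]
  have hcard : ∑ J ∈ D.powerset, W J * (J.card : ℝ) = th * D.card := by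
    have e1 : ∀ J ∈ D.powerset, W J * (J.card : ℝ) =
        ∑ i ∈ D, W J * (if {i} ⊆ J then (1 : ℝ) else 0) := by
      intro J hJ
      rw [← Finset.mul_sum]
      congr 1
      simp only [Finset.singleton_subset_iff]
      rw [Finset.sum_ite_mem, Finset.inter_eq_right.2 (Finset.mem_powerset.1 hJ)]
      simp
    rw [Finset.sum_congr rfl e1, Finset.sum_comm]
    have e2 : ∀ i ∈ D, ∑ J ∈ D.powerset, W J * (if {i} ⊆ J then (1 : ℝ) else 0) = th := by
      intro i hi
      rw [hWK {i} (Finset.singleton_subset_iff.2 hi)]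
      simp
    rw [Finset.sum_congr rfl e2]
    simp [mul_comm]
  rw [← hcard]
  calc ∑ J ∈ D.powerset, W J * (J.card : ℝ)
      ≤ ∑ J ∈ D.powerset, W J * ((w : ℝ) + ∑ X ∈ Xs, (if phi X ⊆ J then (1 : ℝ) else 0)) := by
        refine Finset.sum_le_sum fun J hJ => mul_le_mul_of_nonneg_left ?_ (hW0 J)
        have h2 := h J (Finset.mem_powerset.1 hJ)
        have h3 : (J.card : ℝ) ≤ w + ((Xs.filter (fun X => phi X ⊆ J)).card : ℝ) := by
          exact_mod_cast h2
        rw [← Finset.sum_filter, Finset.sum_const, nsmul_eq_mul, mul_one]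
        exact h3
    _ = w + ∑ X ∈ Xs, th ^ (phi X).card := by
        simp only [mul_add, Finset.sum_add_distrib]
        congr 1
        · rw [← Finset.sum_mul, hW1, one_mul]
        · have e3 : ∀ J ∈ D.powerset, W J * ∑ X ∈ Xs, (if phi X ⊆ J then (1 : ℝ) else 0) =
              ∑ X ∈ Xs, W J * (if phi X ⊆ J then (1 : ℝ) else 0) := fun J _ => Finset.mul_sum _ _ _
          rw [Finset.sum_congr rfl e3, Finset.sum_comm]
          exact Finset.sum_congr rfl fun X hX => hWK _ (hphi X hX)

end FB9
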