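import Pool.Agent.W_fb9763_h19.GoodSum
import Pool.Agent.W_fb9763_h19.Hyper
import Pool.Agent.W_fb9763_h19.ChordHyp

set_option autoImplicit false

namespace FB9

open Finset

/-- `a * b ≤ b ^ a * (b / (b-1))`-type bound used below: for `b > 1` and every `a`,
`a * (b - 1) ≤ b ^ a` (Bernoulli, `one_add_mul_le_pow`). -/
theorem mul_le_pow {b : ℝ} (hb : 1 < b) (a : ℕ) : (a : ℝ) * (b - 1) ≤ b ^ a := by
  have h := one_add_mul_le_pow (a := b - 1) (by linarith) a
  have h2 : (1 + (b - 1)) ^ a = b ^ a := by ring_nf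
  rw [h2] at h
  linarith

private theorem disj_sum_le {E : Type*} [DecidableEq E] (S : Finset E)
    (Xs : Finset (Finset E)) (C : E → Finset (Finset E)) (f : Finset E → ℝ) (hf : ∀ X, 0 ≤ f X)
    (h : ∀ X ∈ Xs, ∃ e ∈ S, X ∈ C e) : ∑ X ∈ Xs, f X ≤ ∑ e ∈ S, ∑ X ∈ C e, f X := by
  calc ∑ X ∈ Xs, f X ≤ ∑ X ∈ Xs, ∑ e ∈ S, (if X ∈ C e then f X else 0) := by
        refine Finset.sum_le_sum fun X hX => ?_
        obtain ⟨e, he, heX⟩ := h X hX
        have h1 := Finset.single_le_sum (f := fun e => if X ∈ C e then f X else 0)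
          (fun i _ => by
            split_ifs
            · exact hf X
            · exact le_rfl) he
        simpa [heX] using h1
    _ = ∑ e ∈ S, ∑ X ∈ Xs, (if X ∈ C e then f X else 0) := Finset.sum_comm
    _ ≤ ∑ e ∈ S, ∑ X ∈ C e, f X := by
        refine Finset.sum_le_sum fun e _ => ?_
        rw [← Finset.sum_filter]
        refine Finset.sum_le_sum_of_subset_of_nonneg ?_ fun X _ _ => hf X
        intro X hX
        exact (Finset.mem_filter.1 hX).2

/-- DISJOINT CHORDS. Let `b = sb / lam > 1`, `K = lam / t ≤ (b-1)/2`, `Z'` good, `Z' ⊆ Z`, `D` a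
pairwise disjoint family of new chords of cardinality `a ≥ 1`. Then `|D| ≤ 2 |Z \ Z'| b^(3a)`.
Proof: apply `hyper` with `th = (b⁻¹)^(3a)` and `chord_hyp`:
`th * |D| ≤ |Z \ Z'| + ∑_{X ∈ inCircs d Z' (D.sup id)} th ^ |meets D X|`. By `meets_card`, with
`m = |meets D X|`: `3 a m ≥ 4 a + |X|` (`m ≥ 2` gives `2am ≥ 4a`, and `am ≥ |X|`), so
`th ^ m = (b⁻¹)^(3am) ≤ (b⁻¹)^(4a) * (b⁻¹)^|X|`. Every such `X` is nonempty and contained in
`D.sup id`, so the sum is at most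
`∑_{e ∈ D.sup id} ∑_{X ∈ circs d Z' e} (b⁻¹)^(4a) (b⁻¹)^|X| ≤ (|D| a) (b⁻¹)^(4a) K`
by `good_sum` (`lam / sb = b⁻¹`; `e ∉ Z'` because chords are disjoint from `Z ⊇ Z'`), and
`|D.sup id| ≤ |D| a`. Finally `a K (b⁻¹)^a ≤ a (b-1)/2 * (b⁻¹)^a ≤ 1/2` by `mul_le_pow`, hence the
sum is at most `th |D| / 2`, so `th |D| ≤ 2 |Z \ Z'|`. -/
theorem disj_chords {E : Type*} [Fintype E] [DecidableEq E] {d : Finset E → ℕ} (hd : Nul d)
    {lam t sb : ℝ} (hlam : 0 < lam) (ht : 0 < t) (hsb : 0 < sb) (hb : 1 < sb / lam)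
    (hK : lam / t ≤ (sb / lam - 1) / 2)
    {Z' Z : Finset E} (hZ : Z' ⊆ Z) (hZ' : Good sb t lam d Z')
    (D : Finset (Finset E)) (hD : ∀ A ∈ D, NewC d Z' Z A)
    (hdis : (D : Set (Finset E)).PairwiseDisjoint id) {a : ℕ} (ha0 : 1 ≤ a)
    (ha : ∀ A ∈ D, A.card = a) :
    (D.card : ℝ) ≤ 2 * (Z \ Z').card * (sb / lam) ^ (3 * a) := by
  set r : ℝ := lam / sb with hr
  have hr0 : 0 < r := div_pos hlam hsb
  have hbr : sb / lam = r⁻¹ := by rw [hr, inv_div]
  rw [hbr] at hb hK ⊢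
  have hr1 : r < 1 := by
    by_contra h
    push Not at h
    have := inv_le_one_of_one_le₀ h
    linarith
  have hbr1 : ∀ n : ℕ, r ^ n * (r⁻¹) ^ n = 1 := by
    intro n
    rw [← mul_pow, mul_inv_cancel₀ hr0.ne', one_pow]
  have h1 := hyper D (inCircs d Z' (D.sup id)) (meets D) (fun X _ => Finset.filter_subset _ _)
    (Z \ Z').card (chord_hyp hd hZ D hD hdis) (r ^ (3 * a)) (by positivity)
    (pow_le_one₀ hr0.le hr1.le)
  have h2 : ∑ X ∈ inCircs d Z' (D.sup id), (r ^ (3 * a)) ^ (meets D X).card ≤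
      ∑ X ∈ inCircs d Z' (D.sup id), r ^ (4 * a) * r ^ X.card := by
    refine Finset.sum_le_sum fun X hX => ?_
    obtain ⟨h3, h4⟩ := meets_card hd hD ha hX
    rw [← pow_mul, ← pow_add]
    refine pow_le_pow_of_le_one hr0.le hr1.le ?_
    nlinarith [Nat.mul_le_mul_left a h3]
  have h5 : ∑ X ∈ inCircs d Z' (D.sup id), r ^ (4 * a) * r ^ X.card ≤
      ∑ e ∈ D.sup id, ∑ X ∈ circs d Z' e, r ^ (4 * a) * r ^ X.card := by
    refine disj_sum_le _ _ _ _ (fun X => by positivity) fun X hX => ?_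
    obtain ⟨h6, h7⟩ := mem_inCircs.1 hX
    have hne : X.Nonempty := by
      rw [Finset.nonempty_iff_ne_empty]
      rintro rfl
      have := h6.2.1
      simp at this
    obtain ⟨e, he⟩ := hne
    exact ⟨e, h7 he, mem_circs.2 ⟨h6, he⟩⟩
  have h8 : ∀ e ∈ D.sup id, ∑ X ∈ circs d Z' e, r ^ (4 * a) * r ^ X.card ≤
      r ^ (4 * a) * (lam / t) := by
    intro e he
    rw [← Finset.mul_sum]
    refine mul_le_mul_of_nonneg_left ?_ (by positivity)
    refine good_sum hd hlam ht hsb hZ' ?_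
    obtain ⟨A, hA, heA⟩ := Finset.mem_sup.1 he
    intro heZ
    exact Finset.disjoint_left.1 (hD A hA).1.1 heA (hZ heZ)
  have h9 : ((D.sup id).card : ℝ) ≤ D.card * a := by
    have : (D.sup id).card ≤ D.card * a := by
      rw [Finset.sup_eq_biUnion]
      refine Finset.card_biUnion_le.trans ?_
      calc ∑ A ∈ D, (id A).card = ∑ _A ∈ D, a := Finset.sum_congr rfl fun A hA => ha A hA
        _ = D.card * a := by rw [Finset.sum_const, smul_eq_mul]
        _ ≤ D.card * a := le_rfl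
    exact_mod_cast this
  have h10 : ∑ e ∈ D.sup id, ∑ X ∈ circs d Z' e, r ^ (4 * a) * r ^ X.card ≤
      (D.card * a) * (r ^ (4 * a) * (lam / t)) := by
    refine (Finset.sum_le_sum h8).trans ?_
    rw [Finset.sum_const, nsmul_eq_mul]
    exact mul_le_mul_of_nonneg_right h9 (by positivity)
  have h11 : (a : ℝ) * (lam / t) * r ^ a ≤ 1 / 2 := by
    have h12 := mul_le_pow hb a
    have h13 : (a : ℝ) * (lam / t) ≤ (r⁻¹) ^ a / 2 := by
      calc (a : ℝ) * (lam / t) ≤ a * ((r⁻¹ - 1) / 2) :=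
            mul_le_mul_of_nonneg_left hK (by positivity)
        _ = (a * (r⁻¹ - 1)) / 2 := by ring
        _ ≤ _ := by linarith
    calc (a : ℝ) * (lam / t) * r ^ a ≤ (r⁻¹) ^ a / 2 * r ^ a :=
          mul_le_mul_of_nonneg_right h13 (by positivity)
      _ = (r ^ a * (r⁻¹) ^ a) / 2 := by ring
      _ = 1 / 2 := by rw [hbr1]
  have h14 : (D.card * a) * (r ^ (4 * a) * (lam / t)) ≤ r ^ (3 * a) * D.card / 2 := by
    calc (D.card * a : ℝ) * (r ^ (4 * a) * (lam / t))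
        = (r ^ (3 * a) * D.card) * (a * (lam / t) * r ^ a) := by
          rw [show 4 * a = 3 * a + a by ring, pow_add]
          ring
      _ ≤ (r ^ (3 * a) * D.card) * (1 / 2) := mul_le_mul_of_nonneg_left h11 (by positivity)
      _ = _ := by ring
  have h15 : r ^ (3 * a) * D.card ≤ 2 * (Z \ Z').card := by linarith
  calc (D.card : ℝ) = (r ^ (3 * a) * (r⁻¹) ^ (3 * a)) * D.card := by rw [hbr1, one_mul]
    _ = (r ^ (3 * a) * D.card) * (r⁻¹) ^ (3 * a) := by ring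
    _ ≤ 2 * (Z \ Z').card * (r⁻¹) ^ (3 * a) :=
      mul_le_mul_of_nonneg_right h15 (by positivity)

end FB9
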