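import Pool.Agent.W_fb9763_h19.CodeNul

set_option autoImplicit false

namespace FB9

open Finset

/-- Words of the punctured code: closed under linear combinations. -/
theorem IsW.add {E : Type*} [DecidableEq E] {p : ℕ}
    {L : Submodule (ZMod p) (E → ZMod p)} {Z : Finset E} {g g' : E → ZMod p}
    (h : IsW L Z g) (h' : IsW L Z g') : IsW L Z (g + g') := by
  obtain ⟨a, ha, rfl⟩ := h
  obtain ⟨b, hb, rfl⟩ := h'
  refine ⟨a + b, L.add_mem ha hb, ?_⟩
  funext e
  by_cases he : e ∈ Z <;> simp [FB9.off, he]

theorem IsW.smul {E : Type*} [DecidableEq E] {p : ℕ}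
    {L : Submodule (ZMod p) (E → ZMod p)} {Z : Finset E} {g : E → ZMod p}
    (h : IsW L Z g) (c : ZMod p) : IsW L Z (c • g) := by
  obtain ⟨a, ha, rfl⟩ := h
  refine ⟨c • a, L.smul_mem c ha, ?_⟩
  funext e
  by_cases he : e ∈ Z <;> simp [FB9.off, he]

/-- Puncturing further: if `T ⊆ Z` and `g` is a word of the code punctured at `T` then `off Z g` is
a word of the code punctured at `Z`. -/
theorem IsW.off {E : Type*} [DecidableEq E] {p : ℕ}
    {L : Submodule (ZMod p) (E → ZMod p)} {T Z : Finset E} (hTZ : T ⊆ Z) {g : E → ZMod p}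
    (h : IsW L T g) : IsW L Z (FB9.off Z g) := by
  obtain ⟨a, ha, rfl⟩ := h
  refine ⟨a, ha, ?_⟩
  funext e
  by_cases he : e ∈ Z
  · simp [FB9.off, he]
  · have he' : e ∉ T := fun h' => he (hTZ h')
    simp [FB9.off, he, he']

private theorem isW_zero_on {E : Type*} [DecidableEq E] {p : ℕ}
    {L : Submodule (ZMod p) (E → ZMod p)} {T : Finset E} {g : E → ZMod p}
    (h : IsW L T g) {e : E} (he : e ∈ T) : g e = 0 := by
  obtain ⟨a, ha, rfl⟩ := h
  simp [FB9.off, he]

private theorem isW_sub_smul {E : Type*} [DecidableEq E] {p : ℕ}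
    {L : Submodule (ZMod p) (E → ZMod p)} {T : Finset E} {g g' : E → ZMod p}
    (h : IsW L T g) (h' : IsW L T g') (c : ZMod p) : IsW L T (g - c • g') := by
  have := h.add (h'.smul (-c))
  rwa [neg_smul, ← sub_eq_add_neg] at this

/-- elimination step: removing the coordinate `f` with a smaller word. -/
private theorem elim {E : Type*} [Fintype E] [DecidableEq E] {p : ℕ} [Fact p.Prime]
    {g g' : E → ZMod p} {f : E} (hsub : supp g' ⊆ supp g) (hf : g' f ≠ 0) :
    supp (g - (g f / g' f) • g') ⊂ supp g := by
  rw [Finset.ssubset_iff_of_subset]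
  · refine ⟨f, hsub (mem_supp.2 hf), ?_⟩
    rw [mem_supp, not_not]
    simp [hf]
  · intro x hx
    rw [mem_supp] at hx ⊢
    intro h0
    apply hx
    have : g' x = 0 := by
      by_contra h1
      exact (mem_supp.1 (hsub (mem_supp.2 h1))) h0
    simp [h0, this]

/-- Every coordinate of the support of a word lies in a circuit contained in the support.
Proof: among the words `g` of the punctured code with `g e ≠ 0`, `supp g ⊆ supp h` take one with
`|supp g|` minimal; `X = supp g`. Disjoint from `T`: words vanish on `T`. Nullity: by `dL_eq_iff` it is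
enough (and then `d (T ∪ X) = d T + 1` follows by removing `e`, using `Nul.insert_le` and
minimality clause) to see that no nonzero word `g'` has `supp g' ⊆ B ⊂ X`: if `g' e ≠ 0` this
contradicts minimality; otherwise pick `f` with `g' f ≠ 0` and consider
`g - (g f / g' f) • g'`, which does not vanish at `e`, has support inside `supp g`, and vanishes at `f`. -/
theorem exists_circ_through {E : Type*} [Fintype E] [DecidableEq E] {p : ℕ} [Fact p.Prime]
    (L : Submodule (ZMod p) (E → ZMod p)) {T : Finset E} {h : E → ZMod p} (hh : IsW L T h)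
    {e : E} (he : h e ≠ 0) : ∃ X : Finset E, Circ (dL L) T X ∧ e ∈ X ∧ X ⊆ supp h := by
  classical
  have hex : ∃ n : ℕ, ∃ g : E → ZMod p, IsW L T g ∧ g e ≠ 0 ∧ supp g ⊆ supp h ∧
      (supp g).card = n := ⟨_, h, hh, he, Finset.Subset.refl _, rfl⟩
  obtain ⟨g, hg, hge, hgh, hgc⟩ := Nat.find_spec hex
  have hmin : ∀ g' : E → ZMod p, IsW L T g' → g' e ≠ 0 → supp g' ⊆ supp h →
      (supp g).card ≤ (supp g').card := by
    intro g' h1 h2 h3
    rw [hgc]
    exact Nat.find_min' hex ⟨g', h1, h2, h3, rfl⟩
  have hdisj : Disjoint (supp g) T := by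
    rw [Finset.disjoint_left]
    intro x hx hxT
    exact (mem_supp.1 hx) (isW_zero_on hg hxT)
  have hkey : ∀ B : Finset E, B ⊂ supp g → dL L (T ∪ B) = dL L T := by
    intro B hB
    have hBT : Disjoint B T := Finset.disjoint_of_subset_left hB.1 hdisj
    rw [dL_eq_iff L hBT]
    intro g' hg' hsup
    by_contra hne
    have hs1 : supp g' ⊂ supp g := lt_of_le_of_lt hsup hB
    by_cases h0 : g' e = 0
    · obtain ⟨f, hf⟩ : ∃ f, g' f ≠ 0 := by
        by_contra hcon
        push Not at hcon
        exact hne (funext hcon)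
      have h1 := elim hs1.1 hf
      have h2 := hmin (g - (g f / g' f) • g') (isW_sub_smul hg hg' _)
        (by simpa [h0] using hge) (h1.1.trans hgh)
      exact absurd (Finset.card_lt_card h1) (not_lt.2 h2)
    · have h2 := hmin g' hg' h0 (hs1.1.trans hgh)
      exact absurd (Finset.card_lt_card hs1) (not_lt.2 h2)
  refine ⟨supp g, ⟨hdisj, ?_, hkey⟩, mem_supp.2 hge, hgh⟩
  have hN := nul_dL L
  have hne : dL L (T ∪ supp g) ≠ dL L T := by
    intro h0
    rw [dL_eq_iff L hdisj] at h0
    have := h0 g hg (Finset.Subset.refl _)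
    rw [this] at hge
    exact hge rfl
  have h1 : dL L T ≤ dL L (T ∪ supp g) := hN.mono _ _ Finset.subset_union_left
  have h2 : dL L (T ∪ supp g) ≤ dL L (T ∪ (supp g).erase e) + 1 := by
    have h3 := hN.insert_le (T ∪ (supp g).erase e) e
    have h4 : insert e (T ∪ (supp g).erase e) = T ∪ supp g := by
      rw [← Finset.union_insert, Finset.insert_erase (mem_supp.2 hge)]
    rwa [h4] at h3
  have h3 : dL L (T ∪ (supp g).erase e) = dL L T :=
    hkey _ (Finset.erase_ssubset (mem_supp.2 hge))
  omega

/-- Every nonzero word contains an irreducible partial vector: take `g ≠ 0`, `IsW L T g`,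
`Part g h` with `|supp g|` minimal (a partial vector of `g` is a partial vector of `h`, and
a partial vector `g' ≠ g` of `g` has smaller support). -/
theorem exists_irr {E : Type*} [Fintype E] [DecidableEq E] {p : ℕ} [Fact p.Prime]
    (L : Submodule (ZMod p) (E → ZMod p)) {T : Finset E} {h : E → ZMod p} (hh : IsW L T h)
    (h0 : h ≠ 0) : ∃ g : E → ZMod p, Irr L T g ∧ Part g h := by
  classical
  have hex : ∃ n : ℕ, ∃ g : E → ZMod p, IsW L T g ∧ g ≠ 0 ∧ Part g h ∧
      (supp g).card = n := ⟨_, h, hh, h0, fun e => Or.inr rfl, rfl⟩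
  obtain ⟨g, hg, hg0, hgh, hgc⟩ := Nat.find_spec hex
  have hmin : ∀ g' : E → ZMod p, IsW L T g' → g' ≠ 0 → Part g' h →
      (supp g).card ≤ (supp g').card := by
    intro g' h1 h2 h3
    rw [hgc]
    exact Nat.find_min' hex ⟨g', h1, h2, h3, rfl⟩
  refine ⟨g, ⟨hg, hg0, ?_⟩, hgh⟩
  intro g' hg' hpart
  by_cases h1 : g' = 0
  · exact Or.inl h1
  · right
    have hsub : supp g' ⊆ supp g := by
      intro x hx
      rw [mem_supp] at hx ⊢
      rcases hpart x with h2 | h2
      · exact absurd h2 hx
      · rwa [← h2]
    have hpart' : Part g' h := by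
      intro x
      rcases hpart x with h2 | h2
      · exact Or.inl h2
      · rcases hgh x with h3 | h3
        · left; rw [h2, h3]
        · right; rw [h2, h3]
    have hcard := hmin g' hg' h1 hpart'
    have heq : supp g' = supp g := Finset.eq_of_subset_of_card_le hsub hcard
    funext x
    by_cases hx : g x = 0
    · rcases hpart x with h2 | h2
      · rw [h2, hx]
      · exact h2
    · have : x ∈ supp g' := by rw [heq]; exact mem_supp.2 hx
      rcases hpart x with h2 | h2
      · exact absurd h2 (mem_supp.1 this)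
      · exact h2

/-- ATTACHED CHORDS. Let `T ⊆ Z`, `h` irreducible, `supp h` meets `Z` and is not contained in `Z`.
Then there is a circuit `A` of `M / Z`, `A ⊆ supp h \ Z`, which is independent over `T`.
Proof: suppose that every circuit `A ⊆ supp h \ Z` of `M / Z` is dependent over `T`. Claim: every word
`g` of the code punctured at `Z` with `supp g ⊆ supp h \ Z` satisfies `IsW L T g`. Induction on
`|supp g|`: `g = 0` is clear; otherwise `supp g` is dependent over `Z`
(`dL_eq_iff`), so it contains a circuit `A` (`exists_circ_through` for `Z`), by assumption and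
`dL_eq_iff` there is `g' ≠ 0` with `IsW L T g'`, `supp g' ⊆ A`; `g'` vanishes on `Z`, so also
`IsW L Z g'` and `supp g' = A` (minimality); pick `f ∈ A`; `g - (g f / g' f) • g'` has smaller
support, so it is a word for `T`, and so is `g`. Apply the claim to `g = off Z h`: then `off Z h`
and `h - off Z h` are words for `T`, partial vectors of `h`, both nonzero, different from `h`:
contradiction to irreducibility. -/
theorem exists_attached {E : Type*} [Fintype E] [DecidableEq E] {p : ℕ} [Fact p.Prime]
    (L : Submodule (ZMod p) (E → ZMod p)) {T Z : Finset E} (hTZ : T ⊆ Z) {h : E → ZMod p}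
    (hh : Irr L T h) (hmeet : ∃ e ∈ Z, h e ≠ 0) (hnot : ¬ supp h ⊆ Z) :
    ∃ A : Finset E, A ⊆ supp h \ Z ∧ Circ (dL L) Z A ∧ dL L (T ∪ A) = dL L T := by
  classical
  by_contra hcon
  push Not at hcon
  have hclaim : ∀ n : ℕ, ∀ g : E → ZMod p, (supp g).card ≤ n → IsW L Z g →
      supp g ⊆ supp h \ Z → IsW L T g := by
    intro n
    induction n with
    | zero =>
      intro g hc hg hs
      have : g = 0 := by
        funext x
        by_contra hx
        have : x ∈ supp g := mem_supp.2 hx
        have h1 : supp g = ∅ := Finset.card_eq_zero.1 (Nat.le_zero.1 hc)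
        rw [h1] at this
        simp at this
      rw [this]
      exact ⟨0, L.zero_mem, by funext x; simp [FB9.off]⟩
    | succ n ih =>
      intro g hc hg hs
      by_cases hg0 : g = 0
      · rw [hg0]
        exact ⟨0, L.zero_mem, by funext x; simp [FB9.off]⟩
      obtain ⟨e, he⟩ : ∃ e, g e ≠ 0 := by
        by_contra hall
        push Not at hall
        exact hg0 (funext hall)
      obtain ⟨A, hA, heA, hAs⟩ := exists_circ_through L hg he
      have hAs' : A ⊆ supp h \ Z := hAs.trans hs
      have hAZ : Disjoint A Z := hA.1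
      have hAT : Disjoint A T := Finset.disjoint_of_subset_right hTZ hAZ
      have hdep := hcon A hAs' hA
      rw [Ne, dL_eq_iff L hAT] at hdep
      push Not at hdep
      obtain ⟨g', hg', hg's, hg'0⟩ := hdep
      -- `g'` vanishes on `Z`
      have hg'Z : IsW L Z g' := by
        have h1 := IsW.off hTZ hg'
        have h2 : FB9.off Z g' = g' := by
          funext x
          by_cases hx : x ∈ Z
          · have : g' x = 0 := by
              by_contra h3
              exact (Finset.disjoint_left.1 hAZ) (hg's (mem_supp.2 h3)) hx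
            simp [FB9.off, hx, this]
          · simp [FB9.off, hx]
        rwa [h2] at h1
      obtain ⟨f, hf⟩ : ∃ f, g' f ≠ 0 := by
        by_contra hall
        push Not at hall
        exact hg'0 (funext hall)
      have hsub : supp g' ⊆ supp g := hg's.trans hAs
      have h1 := elim hsub hf
      have h2 : (supp (g - (g f / g' f) • g')).card ≤ n := by
        have := Finset.card_lt_card h1
        omega
      have h3 := ih _ h2 (isW_sub_smul hg hg'Z _) (h1.1.trans hs)
      have h4 := h3.add (hg'.smul (g f / g' f))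
      have h5 : g - (g f / g' f) • g' + (g f / g' f) • g' = g := sub_add_cancel _ _
      rwa [h5] at h4
  obtain ⟨hW, h0, hirr⟩ := hh
  have hoffW : IsW L Z (FB9.off Z h) := IsW.off hTZ hW
  have hoffs : supp (FB9.off Z h) ⊆ supp h \ Z := by
    intro x hx
    rw [mem_supp] at hx
    rw [Finset.mem_sdiff, mem_supp]
    by_cases hxZ : x ∈ Z
    · simp [FB9.off, hxZ] at hx
    · simp [FB9.off, hxZ] at hx
      exact ⟨hx, hxZ⟩
  have hT : IsW L T (FB9.off Z h) := hclaim _ _ le_rfl hoffW hoffs
  have hpart : Part (FB9.off Z h) h := by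
    intro x
    by_cases hxZ : x ∈ Z
    · left; simp [FB9.off, hxZ]
    · right; simp [FB9.off, hxZ]
  rcases hirr _ hT hpart with h1 | h1
  · apply hnot
    intro x hx
    by_contra hxZ
    have := congrFun h1 x
    simp [FB9.off, hxZ] at this
    exact (mem_supp.1 hx) this
  · obtain ⟨e, heZ, he⟩ := hmeet
    have := congrFun h1 e
    simp [FB9.off, heZ] at this
    exact he this.symm

end FB9
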