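import Pool.Agent.W_fb9763_h19.Clos
import Pool.Agent.W_fb9763_h19.AllCh
import Pool.Agent.W_fb9763_h19.Words

set_option autoImplicit false

namespace FB9

open Finset

/-- Circuits are nonempty. -/
theorem Circ.nonempty' {E : Type*} [DecidableEq E] {d : Finset E → ℕ} {Z A : Finset E}
    (h : Circ d Z A) : A.Nonempty := by
  rw [Finset.nonempty_iff_ne_empty]
  rintro rfl
  have := h.2.1
  simp at this

/-- Going down: a circuit of `M / Z₁` which is dependent over `Z ⊆ Z₁` is a circuit of `M / Z`. -/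
theorem Circ.down {E : Type*} [DecidableEq E] {d : Finset E → ℕ} (hd : Nul d)
    {Z Z₁ A : Finset E} (hZ : Z ⊆ Z₁) (h : Circ d Z₁ A) (hne : d (Z ∪ A) ≠ d Z) :
    Circ d Z A := by
  have key : ∀ B : Finset E, B ⊆ A → d (Z ∪ B) + d Z₁ ≤ d (Z₁ ∪ B) + d Z := by
    intro B hB
    have h1 := hd.super (Z ∪ B) Z₁
    have h2 : Z ∪ B ∪ Z₁ = Z₁ ∪ B := by
      ext x; simp only [mem_union]
      constructor
      · rintro ((h | h) | h)
        · exact Or.inl (hZ h)
        · exact Or.inr h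
        · exact Or.inl h
      · rintro (h | h)
        · exact Or.inr h
        · exact Or.inl (Or.inr h)
    have h3 : (Z ∪ B) ∩ Z₁ = Z := by
      ext x; simp only [mem_union, mem_inter]
      constructor
      · rintro ⟨h' | h', h''⟩
        · exact h'
        · exact absurd h'' (Finset.disjoint_left.1 h.1 (hB h'))
      · intro h'
        exact ⟨Or.inl h', hZ h'⟩
    rw [h2, h3] at h1
    exact h1
  refine ⟨Finset.disjoint_of_subset_right hZ h.1, ?_, ?_⟩
  · have h1 := key A (Finset.Subset.refl _)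
    have h2 := h.2.1
    have h3 := hd.mono Z (Z ∪ A) Finset.subset_union_left
    omega
  · intro B hB
    have h1 := key B hB.1
    have h2 := h.2.2 B hB
    have h3 := hd.mono Z (Z ∪ B) Finset.subset_union_left
    omega

/-- Combinatorial step. Let `T ⊆ Z' ⊆ Z` and `h ∈ Wset L T Z' Z`. There is a pairwise disjoint family
`D ⊆ newcs (dL L) Z' Z` of subsets of `supp h` such that, with `Z₁ ⊇ Z ∪ D.sup id` arbitrary,
`h ∈ Wset L T Z Z₁` and, if `D = ∅`, `supp h ⊆ Z`.
Proof: `D` is a maximal disjoint subfamily (`exists_max_disj`) of the new chords contained in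
`supp h`. If `supp h ⊄ Z`, `exists_attached` gives a circuit `A ⊆ supp h \ Z` of `M / Z` independent
over `T`, hence over `Z'` (definition of `Wset`), so `D ≠ ∅`. For `Z₁`: a circuit
`A ⊆ supp h \ Z₁` of `M / Z₁`, independent over `T`, must be independent over `Z`: otherwise (words
of `L` punctured at `Z` inside `A` are words punctured at `Z₁` inside `A`, so `A` is a circuit of
`M / Z`; in terms of nullities: `d (Z ∪ A) ≥ d Z + 1`, and for `B ⊆ A`
`d (Z ∪ B) - d Z ≤ d (Z₁ ∪ B) - d Z₁` by supermodularity) `A` is a circuit of `M / Z` independent over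
`T`, so independent over `Z'`, i.e. a new chord inside `supp h`, so it is not disjoint from
`D.sup id ⊆ Z₁`, a contradiction. -/
theorem wset_step {E : Type*} [Fintype E] [DecidableEq E] {p : ℕ} [Fact p.Prime]
    (L : Submodule (ZMod p) (E → ZMod p)) {T Z' Z : Finset E} (hT : T ⊆ Z') (hZ : Z' ⊆ Z)
    {h : E → ZMod p} (hh : h ∈ Wset L T Z' Z) :
    ∃ D : Finset (Finset E), D ⊆ newcs (dL L) Z' Z ∧
      (D : Set (Finset E)).PairwiseDisjoint id ∧ (∀ A ∈ D, A ⊆ supp h) ∧
      (D = ∅ → supp h ⊆ Z) ∧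
      ∀ Z₁ : Finset E, Z ∪ D.sup id ⊆ Z₁ → h ∈ Wset L T Z Z₁ := by
  classical
  rw [Wset, mem_filter] at hh
  obtain ⟨-, hirr, hmeet, hold⟩ := hh
  have hNne : ∀ A ∈ (newcs (dL L) Z' Z).filter (fun A => A ⊆ supp h), A.Nonempty := by
    intro A hA
    exact ((mem_newcs.1 (mem_filter.1 hA).1).1).nonempty'
  obtain ⟨D, hDN, hDd, hDmax⟩ := exists_max_disj _ hNne
  refine ⟨D, fun A hA => (mem_filter.1 (hDN hA)).1, hDd, fun A hA => (mem_filter.1 (hDN hA)).2,
    ?_, ?_⟩
  · intro hD0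
    by_contra hnot
    obtain ⟨A, hA1, hA2, hA3⟩ := exists_attached L (hT.trans hZ) hirr hmeet hnot
    have hA4 := hold A hA1 hA2 hA3
    obtain ⟨B, hB, _⟩ := hDmax A
      (mem_filter.2 ⟨mem_newcs.2 ⟨hA2, hA4⟩, fun x hx => (mem_sdiff.1 (hA1 hx)).1⟩)
    rw [hD0] at hB
    exact absurd hB (Finset.notMem_empty _)
  · intro Z₁ hZ₁
    have hZZ₁ : Z ⊆ Z₁ := Finset.subset_union_left.trans hZ₁
    rw [Wset, mem_filter]
    refine ⟨mem_univ _, hirr, ?_, ?_⟩
    · obtain ⟨e, he, he'⟩ := hmeet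
      exact ⟨e, hZZ₁ he, he'⟩
    · intro A hA1 hA2 hA3
      by_contra hne
      have hAc : Circ (dL L) Z A := hA2.down (nul_dL L) hZZ₁ hne
      have hAs : A ⊆ supp h \ Z := by
        intro x hx
        have := mem_sdiff.1 (hA1 hx)
        exact mem_sdiff.2 ⟨this.1, fun hz => this.2 (hZZ₁ hz)⟩
      have hA4 := hold A hAs hAc hA3
      obtain ⟨B, hB, hB'⟩ := hDmax A
        (mem_filter.2 ⟨mem_newcs.2 ⟨hAc, hA4⟩, fun x hx => (mem_sdiff.1 (hA1 hx)).1⟩)
      apply hB'
      have hBZ : B ⊆ Z₁ := by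
        intro x hx
        exact hZ₁ (mem_union_right _ (Finset.mem_sup.2 ⟨B, hB, hx⟩))
      exact Finset.disjoint_of_subset_right hBZ hA2.1

/-- The potential is positive. -/
theorem Ps_pos' {E : Type*} [Fintype E] [DecidableEq E] {s t lam : ℝ} (hs : 0 < s) (ht : 0 < t)
    (hlam : 0 < lam) (d : Finset E → ℕ) (S : Finset E) : 0 < Ps s t lam d S := by
  unfold Ps
  have := F_pos hlam d S
  positivity

/-- The part of the sum with empty family. -/
theorem part_empty {E : Type*} [Fintype E] [DecidableEq E] {p : ℕ} [Fact p.Prime]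
    {x de rho lam t : ℝ} (hP : Par p x de rho lam t)
    (L : Submodule (ZMod p) (E → ZMod p)) {T : Finset E}
    (hT : ∀ S : Finset E, Ps (rho ^ 2 * (1 + lam)) t lam (dL L) T ≤
      Ps (rho ^ 2 * (1 + lam)) t lam (dL L) S)
    {Z : Finset E} (hTZ : T ⊆ Z) (W : Finset (E → ZMod p))
    (hW : ∀ g ∈ W, IsW L T g ∧ supp g ⊆ Z) :
    (∑ h ∈ W, x ^ (supp h \ Z).card) *
      (rho ^ (Z \ T).card * Ps (rho ^ 4 * (1 + lam)) t lam (dL L) T) ≤
      Ps (rho ^ 4 * (1 + lam)) t lam (dL L) Z := by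
  have hp1 : (1 : ℝ) ≤ (p : ℝ) := by exact_mod_cast (Fact.out : p.Prime).one_lt.le
  have hlam := hP.lam0
  have hrho := hP.rho1
  have hrho0 : 0 < rho := by linarith
  have ht0 : 0 < t := lt_of_lt_of_le (by positivity) hP.t1
  have hs : 0 < rho ^ 4 * (1 + lam) := by positivity
  have hPT := Ps_pos' hs ht0 hlam (dL L) T
  have h1 : (∑ h ∈ W, x ^ (supp h \ Z).card) = W.card := by
    rw [Finset.card_eq_sum_ones, Nat.cast_sum]
    apply Finset.sum_congr rfl
    intro h hh
    rw [Finset.sdiff_eq_empty_iff_subset.2 (hW h hh).2]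
    simp
  have h2 : (W.card : ℝ) ≤ rho ^ (Z \ T).card := by
    refine le_trans ?_ (dens (nul_dL L) (P := (p : ℝ)) (by positivity) hrho hlam ht0 hP.t1 hT hTZ)
    exact_mod_cast card_words L hTZ W hW
  have h3 := pi_lower (r := rho ^ 2) hT (one_le_pow₀ hrho.le) hTZ
  have h4 : rho ^ 2 * (1 + lam) * rho ^ 2 = rho ^ 4 * (1 + lam) := by ring
  rw [h4] at h3
  rw [h1]
  calc (W.card : ℝ) * (rho ^ (Z \ T).card * Ps (rho ^ 4 * (1 + lam)) t lam (dL L) T)
      ≤ rho ^ (Z \ T).card * (rho ^ (Z \ T).card * Ps (rho ^ 4 * (1 + lam)) t lam (dL L) T) :=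
        mul_le_mul_of_nonneg_right h2 (by positivity)
    _ = (rho ^ 2) ^ (Z \ T).card * Ps (rho ^ 4 * (1 + lam)) t lam (dL L) T := by ring
    _ ≤ _ := h3

/-- The product over the new chords. -/
theorem prod_chords {E : Type*} [Fintype E] [DecidableEq E] {p : ℕ} [Fact p.Prime]
    {x de rho lam t : ℝ} (hP : Par p x de rho lam t)
    {d : Finset E → ℕ} (hd : Nul d)
    {Z' Z : Finset E} (hZ : Z' ⊆ Z)
    (hZ' : Good (rho ^ 4 * (1 + lam)) t lam d Z')
    (hZg : Good (rho ^ 4 * (1 + lam)) t lam d Z) :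
    ∏ A ∈ newcs d Z' Z, (1 + (x * rho ^ 4) ^ A.card) ≤ rho ^ (Z \ Z').card := by
  have hp1 : (1 : ℝ) ≤ (p : ℝ) := by exact_mod_cast (Fact.out : p.Prime).one_lt.le
  have hlam := hP.lam0
  have hrho := hP.rho1
  have hx := hP.x0
  have hrho0 : 0 < rho := by linarith
  have ht0 : 0 < t := lt_of_lt_of_le (by positivity) hP.t1
  have hs : 0 < rho ^ 4 * (1 + lam) := by positivity
  have hb : 1 < rho ^ 4 * (1 + lam) / lam := by
    rw [lt_div_iff₀ hlam]
    have : 1 ≤ rho ^ 4 := one_le_pow₀ hrho.le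
    nlinarith
  have h1 := all_chords hd hlam ht0 hs hb hP.k1 hZ hZ' hZg (z := x * rho ^ 4) (by positivity) hP.zb
  calc ∏ A ∈ newcs d Z' Z, (1 + (x * rho ^ 4) ^ A.card)
      ≤ ∏ A ∈ newcs d Z' Z, Real.exp ((x * rho ^ 4) ^ A.card) := by
        apply Finset.prod_le_prod
        · intro A _; positivity
        · intro A _
          have := Real.add_one_le_exp ((x * rho ^ 4) ^ A.card)
          linarith
    _ = Real.exp (∑ A ∈ newcs d Z' Z, (x * rho ^ 4) ^ A.card) := (Real.exp_sum _ _).symm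
    _ ≤ Real.exp ((Z \ Z').card * (2 * (lam / t) / (rho ^ 4 * (1 + lam) / lam - 1) ^ 2)) :=
        Real.exp_le_exp.2 h1
    _ = (Real.exp (2 * (lam / t) / (rho ^ 4 * (1 + lam) / lam - 1) ^ 2)) ^ (Z \ Z').card := by
        rw [← Real.exp_nat_mul]
    _ ≤ rho ^ (Z \ Z').card := pow_le_pow_left₀ (Real.exp_pos _).le hP.k2 _

/-- MAIN INDUCTION. Abbreviate `sb = rho^4 (1+lam)`, `P = Ps sb t lam (dL L)`. By strong induction on
`|Zᶜ|` (for all `Z'`). Choose for every `h ∈ Wset L T Z' Z` a family `D h` as in `wset_step`.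
Words with `D h = ∅` are supported in `Z`; their number is at most `p^(d Z - d T)` (`card_words`)
`≤ rho ^ |Z \ T|` (`dens`), each has weight `1` in the sum, and
`rho^|Z\T| * rho^|Z' \ T| * P T ≤ rho^(2|Z\T|) * P T ≤ P Z`; more precisely
`#words * rho^|Z \ T| * P T ≤ P Z` by `pi_lower` (with `s = rho^2 (1+lam)`, `r = rho^2`).
For a nonempty family `D` let `Z₁ ⊇ Z ∪ D.sup id` be the closure from `exists_clos`. The words with
`D h = D` belong to `Wset L T Z Z₁`, and `|supp h \ Z| ≥ |D.sup id| + |supp h \ Z₁|`, so by the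
induction hypothesis for `(Z, Z₁)` (`Z₁` is strictly larger than `Z`)
`∑ x^|supp h \ Z| * rho^|Z \ T| * P T ≤ x^|D.sup id| * P Z₁ ≤ (x rho^4)^|D.sup id| * P Z`
(`Ps_union`). Summing over all `D ⊆ N := newcs (dL L) Z' Z` (with `|D.sup id| = ∑_{A ∈ D} |A|` for
disjoint `D`, `z = x rho^4`):
`G * rho^|Z \ T| * P T ≤ P Z * ∑_{D ⊆ N} ∏_{A ∈ D} z^|A| = P Z * ∏_{A ∈ N} (1 + z^|A|)
≤ P Z * exp (∑_{A ∈ N} z^|A|) ≤ P Z * exp (|Z \ Z'| * κ) ≤ P Z * rho^|Z \ Z'|`
(`all_chords`, `Par.zb`, `Par.k1`, `Par.k2`), and `|Z \ T| = |Z \ Z'| + |Z' \ T|`; divide by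
`rho^|Z \ Z'|`. -/
theorem main_ind {E : Type*} [Fintype E] [DecidableEq E] {p : ℕ} [Fact p.Prime]
    {x de rho lam t : ℝ} (hP : Par p x de rho lam t)
    (L : Submodule (ZMod p) (E → ZMod p)) {T : Finset E}
    (hT : ∀ S : Finset E, Ps (rho ^ 2 * (1 + lam)) t lam (dL L) T ≤
      Ps (rho ^ 2 * (1 + lam)) t lam (dL L) S)
    {Z' Z : Finset E} (hTZ : T ⊆ Z') (hZ : Z' ⊆ Z)
    (hZ' : Good (rho ^ 4 * (1 + lam)) t lam (dL L) Z')
    (hZg : Good (rho ^ 4 * (1 + lam)) t lam (dL L) Z) :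
    (∑ h ∈ Wset L T Z' Z, x ^ (supp h \ Z).card) *
      (rho ^ (Z' \ T).card * Ps (rho ^ 4 * (1 + lam)) t lam (dL L) T) ≤
      Ps (rho ^ 4 * (1 + lam)) t lam (dL L) Z := by
  classical
  have hp1 : (1 : ℝ) ≤ (p : ℝ) := by exact_mod_cast (Fact.out : p.Prime).one_lt.le
  have hlam := hP.lam0
  have hrho := hP.rho1
  have hx := hP.x0
  have hrho0 : 0 < rho := by linarith
  have ht0 : 0 < t := lt_of_lt_of_le (by positivity) hP.t1
  have ht1 : 1 + lam ≤ t := by
    refine le_trans ?_ hP.t1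
    have : 1 ≤ (p : ℝ) ^ 2 := one_le_pow₀ hp1
    nlinarith
  have hs : 0 < rho ^ 4 * (1 + lam) := by positivity
  have hd := nul_dL L
  -- strong induction
  suffices H : ∀ n : ℕ, ∀ Z' Z : Finset E, (Zᶜ).card = n → T ⊆ Z' → Z' ⊆ Z →
      Good (rho ^ 4 * (1 + lam)) t lam (dL L) Z' →
      Good (rho ^ 4 * (1 + lam)) t lam (dL L) Z →
      (∑ h ∈ Wset L T Z' Z, x ^ (supp h \ Z).card) *
        (rho ^ (Z' \ T).card * Ps (rho ^ 4 * (1 + lam)) t lam (dL L) T) ≤
        Ps (rho ^ 4 * (1 + lam)) t lam (dL L) Z from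
    H _ Z' Z rfl hTZ hZ hZ' hZg
  intro n
  induction n using Nat.strong_induction_on with
  | _ n ih =>
  intro Z' Z hn hTZ hZ hZ' hZg
  have hPT := Ps_pos' hs ht0 hlam (dL L) T
  have hPZ := Ps_pos' hs ht0 hlam (dL L) Z
  set P := Ps (rho ^ 4 * (1 + lam)) t lam (dL L) with hPdef
  choose! D hD1 hD2 hD3 hD4 hD5 using fun h (hh : h ∈ Wset L T Z' Z) => wset_step L hTZ hZ hh
  -- one family
  have hfam : ∀ D' ∈ (newcs (dL L) Z' Z).powerset,
      (∑ h ∈ Wset L T Z' Z with D h = D', x ^ (supp h \ Z).card) *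
        (rho ^ (Z \ T).card * P T) ≤ (∏ A ∈ D', (x * rho ^ 4) ^ A.card) * P Z := by
    intro D' hD'
    by_cases hemp : D' = ∅
    · subst hemp
      rw [Finset.prod_empty, one_mul]
      apply part_empty hP L hT (hTZ.trans hZ)
      intro g hg
      obtain ⟨hg1, hg2⟩ := mem_filter.1 hg
      exact ⟨(mem_filter.1 hg1).2.1.1, hD4 g hg1 hg2⟩
    by_cases hfib : ∃ h₀ ∈ Wset L T Z' Z, D h₀ = D'
    · obtain ⟨h₀, hh₀, rfl⟩ := hfib
      set U := (D h₀).sup id with hU
      obtain ⟨Z₁, hZ₁, hZ₁g, hZ₁P⟩ := exists_clos (rho ^ 4 * (1 + lam)) t lam (dL L) (Z ∪ U)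
      have hZZ₁ : Z ⊆ Z₁ := Finset.subset_union_left.trans hZ₁
      have hUZ₁ : U ⊆ Z₁ := Finset.subset_union_right.trans hZ₁
      have hUZ : Disjoint U Z := by
        rw [Finset.disjoint_left]
        intro y hy hyZ
        obtain ⟨A, hA, hyA⟩ := Finset.mem_sup.1 hy
        exact Finset.disjoint_left.1 (mem_newcs.1 (hD1 h₀ hh₀ hA)).1.1 hyA hyZ
      have hlt : (Z₁ᶜ).card < n := by
        rw [← hn]
        apply Finset.card_lt_card
        rw [Finset.compl_ssubset_compl]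
        refine ⟨hZZ₁, fun hsub => ?_⟩
        obtain ⟨A, hA⟩ := Finset.nonempty_iff_ne_empty.2 hemp
        obtain ⟨y, hy⟩ := ((mem_newcs.1 (hD1 h₀ hh₀ hA)).1).nonempty'
        have hyU : y ∈ U := Finset.mem_sup.2 ⟨A, hA, hy⟩
        exact Finset.disjoint_left.1 hUZ hyU (hsub (hUZ₁ hyU))
      have hIH := ih _ hlt Z Z₁ rfl (hTZ.trans hZ) hZZ₁ hZg hZ₁g
      have hsum : (∑ h ∈ Wset L T Z' Z with D h = D h₀, x ^ (supp h \ Z).card) ≤
          x ^ U.card * ∑ h ∈ Wset L T Z Z₁, x ^ (supp h \ Z₁).card := by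
        rw [Finset.mul_sum]
        calc (∑ h ∈ Wset L T Z' Z with D h = D h₀, x ^ (supp h \ Z).card)
            ≤ ∑ h ∈ Wset L T Z' Z with D h = D h₀, x ^ U.card * x ^ (supp h \ Z₁).card := by
              apply Finset.sum_le_sum
              intro h hh
              obtain ⟨hh1, hh2⟩ := mem_filter.1 hh
              rw [← pow_add]
              apply pow_le_pow_of_le_one hx.le hP.x1.le
              rw [← Finset.card_union_of_disjoint]
              · apply Finset.card_le_card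
                intro y hy
                rcases mem_union.1 hy with hy | hy
                · obtain ⟨A, hA, hyA⟩ := Finset.mem_sup.1 hy
                  rw [← hh2] at hA
                  exact mem_sdiff.2 ⟨hD3 h hh1 A hA hyA, Finset.disjoint_left.1 hUZ hy⟩
                · obtain ⟨hy1, hy2⟩ := mem_sdiff.1 hy
                  exact mem_sdiff.2 ⟨hy1, fun h' => hy2 (hZZ₁ h')⟩
              · rw [Finset.disjoint_left]
                intro y hy hy'
                exact (mem_sdiff.1 hy').2 (hUZ₁ hy)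
          _ ≤ ∑ h ∈ Wset L T Z Z₁, x ^ U.card * x ^ (supp h \ Z₁).card := by
              apply Finset.sum_le_sum_of_subset_of_nonneg
              · intro h hh
                obtain ⟨hh1, hh2⟩ := mem_filter.1 hh
                apply hD5 h hh1
                rw [hh2]
                exact hZ₁
              · intro h _ _
                positivity
      have hcard : (x * rho ^ 4) ^ U.card = ∏ A ∈ D h₀, (x * rho ^ 4) ^ A.card := by
        rw [Finset.prod_pow_eq_pow_sum]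
        congr 1
        rw [hU, Finset.sup_eq_biUnion]
        exact Finset.card_biUnion (fun A hA B hB hAB => hD2 h₀ hh₀ hA hB hAB)
      rw [← hcard]
      have hPsU := Ps_union hd (q := rho ^ 4) (by positivity) hlam ht1 hUZ
      calc (∑ h ∈ Wset L T Z' Z with D h = D h₀, x ^ (supp h \ Z).card) *
            (rho ^ (Z \ T).card * P T)
          ≤ (x ^ U.card * ∑ h ∈ Wset L T Z Z₁, x ^ (supp h \ Z₁).card) *
            (rho ^ (Z \ T).card * P T) := mul_le_mul_of_nonneg_right hsum (by positivity)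
        _ = x ^ U.card * ((∑ h ∈ Wset L T Z Z₁, x ^ (supp h \ Z₁).card) *
            (rho ^ (Z \ T).card * P T)) := by ring
        _ ≤ x ^ U.card * P Z₁ := mul_le_mul_of_nonneg_left hIH (by positivity)
        _ ≤ x ^ U.card * P (Z ∪ U) := mul_le_mul_of_nonneg_left hZ₁P (by positivity)
        _ ≤ x ^ U.card * ((rho ^ 4) ^ U.card * P Z) :=
            mul_le_mul_of_nonneg_left hPsU (by positivity)
        _ = (x * rho ^ 4) ^ U.card * P Z := by rw [mul_pow]; ring
    · have : (Wset L T Z' Z).filter (fun h => D h = D') = ∅ := by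
        rw [Finset.filter_eq_empty_iff]
        intro h hh hD
        exact hfib ⟨h, hh, hD⟩
      rw [this, Finset.sum_empty, zero_mul]
      have : 0 ≤ ∏ A ∈ D', (x * rho ^ 4) ^ A.card :=
        Finset.prod_nonneg (fun A _ => by positivity)
      positivity
  have htot : (∑ h ∈ Wset L T Z' Z, x ^ (supp h \ Z).card) * (rho ^ (Z \ T).card * P T) ≤
      rho ^ (Z \ Z').card * P Z := by
    rw [← Finset.sum_fiberwise_of_maps_to (s := Wset L T Z' Z)
      (t := (newcs (dL L) Z' Z).powerset) (g := D)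
      (fun h hh => Finset.mem_powerset.2 (hD1 h hh)), Finset.sum_mul]
    calc _ ≤ ∑ D' ∈ (newcs (dL L) Z' Z).powerset, (∏ A ∈ D', (x * rho ^ 4) ^ A.card) * P Z :=
          Finset.sum_le_sum hfam
      _ = (∏ A ∈ newcs (dL L) Z' Z, (1 + (x * rho ^ 4) ^ A.card)) * P Z := by
          rw [← Finset.sum_mul, Finset.prod_one_add]
      _ ≤ _ := mul_le_mul_of_nonneg_right (prod_chords hP hd hZ hZ' hZg) hPZ.le
  have hc : (Z \ T).card = (Z \ Z').card + (Z' \ T).card := by
    rw [← Finset.card_union_of_disjoint]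
    · congr 1
      ext y
      simp only [mem_sdiff, mem_union]
      constructor
      · rintro ⟨h1, h2⟩
        by_cases hy : y ∈ Z'
        · exact Or.inr ⟨hy, h2⟩
        · exact Or.inl ⟨h1, hy⟩
      · rintro (⟨h1, h2⟩ | ⟨h1, h2⟩)
        · exact ⟨h1, fun h => h2 (hTZ h)⟩
        · exact ⟨hZ h1, h2⟩
    · rw [Finset.disjoint_left]
      intro y hy hy'
      exact (mem_sdiff.1 hy).2 (mem_sdiff.1 hy').1
  rw [hc, pow_add] at htot
  have hr : 0 < rho ^ (Z \ Z').card := by positivity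
  have : rho ^ (Z \ Z').card * ((∑ h ∈ Wset L T Z' Z, x ^ (supp h \ Z).card) *
      (rho ^ (Z' \ T).card * P T)) ≤ rho ^ (Z \ Z').card * P Z := by
    calc _ = (∑ h ∈ Wset L T Z' Z, x ^ (supp h \ Z).card) *
        (rho ^ (Z \ Z').card * rho ^ (Z' \ T).card * P T) := by ring
      _ ≤ _ := htot
  exact le_of_mul_le_mul_left this hr

end FB9
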