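import Pool.Agent.W_fb9763_h19.UIneq
import Pool.Agent.W_fb9763_h19.CircSum

set_option autoImplicit false

namespace FB9

open Finset

/-- If `Z` is good and `X` is a circuit of `M / Z` then `Ps (Z) ≤ Ps (Z ∪ X)` reads
`F Z ≤ sb ^ |X| * F (Z ∪ X) / t`, i.e. `t * (lam / sb) ^ |X| * F Z ≤ lam ^ |X| * F (Z ∪ X)`. Sum over
all circuits through `e`, use `circ_sum` and divide by `t * F Z > 0`. -/
theorem good_sum {E : Type*} [Fintype E] [DecidableEq E] {d : Finset E → ℕ} (hd : Nul d)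
    {lam t sb : ℝ} (hlam : 0 < lam) (ht : 0 < t) (hsb : 0 < sb) {Z : Finset E}
    (hZ : Good sb t lam d Z) {e : E} (he : e ∉ Z) :
    ∑ X ∈ circs d Z e, (lam / sb) ^ X.card ≤ lam / t := by
  have hF : 0 < F lam d Z := F_pos hlam d Z
  have hterm : ∀ X ∈ circs d Z e,
      t * F lam d Z * (lam / sb) ^ X.card ≤ lam ^ X.card * F lam d (Z ∪ X) := by
    intro X hX
    obtain ⟨⟨hdis, hdX, _⟩, _⟩ := mem_circs.1 hX
    have h1 := hZ (Z ∪ X) Finset.subset_union_left
    unfold Ps at h1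
    rw [hdX, Finset.card_union_of_disjoint hdis.symm, pow_add, pow_succ] at h1
    have hsZ : 0 < sb ^ Z.card := pow_pos hsb _
    have htZ : 0 < t ^ d Z := pow_pos ht _
    have hsX : 0 < sb ^ X.card := pow_pos hsb _
    rw [div_le_div_iff₀ htZ (mul_pos htZ ht)] at h1
    have h2 : (sb ^ Z.card * t ^ d Z) * (t * F lam d Z) ≤
        (sb ^ Z.card * t ^ d Z) * (sb ^ X.card * F lam d (Z ∪ X)) := by
      calc (sb ^ Z.card * t ^ d Z) * (t * F lam d Z)
          = sb ^ Z.card * F lam d Z * (t ^ d Z * t) := by ring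
        _ ≤ sb ^ Z.card * sb ^ X.card * F lam d (Z ∪ X) * t ^ d Z := h1
        _ = (sb ^ Z.card * t ^ d Z) * (sb ^ X.card * F lam d (Z ∪ X)) := by ring
    have h3 : t * F lam d Z ≤ sb ^ X.card * F lam d (Z ∪ X) :=
      le_of_mul_le_mul_left h2 (mul_pos hsZ htZ)
    have hq : 0 ≤ (lam / sb) ^ X.card := pow_nonneg (div_nonneg hlam.le hsb.le) _
    calc t * F lam d Z * (lam / sb) ^ X.card
        ≤ (sb ^ X.card * F lam d (Z ∪ X)) * (lam / sb) ^ X.card :=
          mul_le_mul_of_nonneg_right h3 hq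
      _ = lam ^ X.card * F lam d (Z ∪ X) := by
          rw [div_pow]
          field_simp
  have hsum : t * F lam d Z * ∑ X ∈ circs d Z e, (lam / sb) ^ X.card ≤ lam * F lam d Z := by
    rw [Finset.mul_sum]
    exact (Finset.sum_le_sum hterm).trans (circ_sum hd hlam Z e he)
  rw [le_div_iff₀ ht]
  have h4 : F lam d Z * ((∑ X ∈ circs d Z e, (lam / sb) ^ X.card) * t) ≤ F lam d Z * lam := by
    calc F lam d Z * ((∑ X ∈ circs d Z e, (lam / sb) ^ X.card) * t)
        = t * F lam d Z * ∑ X ∈ circs d Z e, (lam / sb) ^ X.card := by ring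
      _ ≤ lam * F lam d Z := hsum
      _ = F lam d Z * lam := mul_comm _ _
  exact le_of_mul_le_mul_left h4 hF

/-- The same with an arbitrary weight `z ≤ lam / sb`. -/
theorem good_sum_le {E : Type*} [Fintype E] [DecidableEq E] {d : Finset E → ℕ} (hd : Nul d)
    {lam t sb : ℝ} (hlam : 0 < lam) (ht : 0 < t) (hsb : 0 < sb) {Z : Finset E}
    (hZ : Good sb t lam d Z) {e : E} (he : e ∉ Z) {z : ℝ} (hz : 0 ≤ z) (hz' : z ≤ lam / sb) :
    ∑ X ∈ circs d Z e, z ^ X.card ≤ lam / t := by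
  refine le_trans (Finset.sum_le_sum fun X _ => ?_) (good_sum hd hlam ht hsb hZ he)
  exact pow_le_pow_left₀ hz hz' _

end FB9
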