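import Pool.Agent.W_fb9763_h19.GInd

set_option autoImplicit false

namespace FB9

open Finset

private theorem total_Ps_pos {E : Type*} [Fintype E] [DecidableEq E] {s t lam : ℝ}
    (hs : 0 < s) (ht : 0 < t) (hlam : 0 < lam) (d : Finset E → ℕ) (S : Finset E) :
    0 < Ps s t lam d S := by
  unfold Ps
  exact div_pos (mul_pos (pow_pos hs _) (F_pos hlam d S)) (pow_pos ht _)

private theorem total_t_pos {p : ℕ} {x de rho lam t : ℝ} (hp : p.Prime)
    (hP : Par p x de rho lam t) : 1 + lam ≤ t ∧ 0 < t := by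
  have h1 : (1 : ℝ) ≤ (p : ℝ) ^ 2 := by
    have : (1 : ℝ) ≤ (p : ℝ) := by exact_mod_cast hp.one_lt.le
    exact one_le_pow₀ this
  have h2 : 0 < 1 + lam := by linarith [hP.lam0]
  have h3 : 1 + lam ≤ t := by nlinarith [hP.t1]
  exact ⟨h3, by linarith⟩

private theorem total_weight {p : ℕ} {x de rho lam t : ℝ}
    (hP : Par p x de rho lam t) : x * rho ^ 4 ≤ lam / (rho ^ 4 * (1 + lam)) := by
  have hr : 1 < rho := hP.rho1
  have hr4 : 1 ≤ rho ^ 4 := one_le_pow₀ hr.le
  have hl : 0 < lam := hP.lam0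
  have hx : 0 < x := hP.x0
  have hsb : 0 < rho ^ 4 * (1 + lam) := by positivity
  have hb1 : 1 ≤ rho ^ 4 * (1 + lam) / lam := by
    rw [le_div_iff₀ hl]
    nlinarith
  have hz : 0 < x * rho ^ 4 := by positivity
  have h1 : (x * rho ^ 4) * (rho ^ 4 * (1 + lam) / lam) ≤ 1 := by
    refine le_trans ?_ hP.zb
    refine mul_le_mul_of_nonneg_left ?_ hz.le
    exact le_self_pow₀ hb1 (by norm_num)
  rw [le_div_iff₀ hsb]
  have h2 : (x * rho ^ 4) * (rho ^ 4 * (1 + lam) / lam) * lam ≤ 1 * lam :=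
    mul_le_mul_of_nonneg_right h1 hl.le
  have h3 : (x * rho ^ 4) * (rho ^ 4 * (1 + lam) / lam) * lam =
      x * rho ^ 4 * (rho ^ 4 * (1 + lam)) := by
    field_simp
  linarith

open scoped Classical in
private theorem total_one {E : Type*} [Fintype E] [DecidableEq E] {p : ℕ} [Fact p.Prime]
    {x de rho lam t : ℝ} (hP : Par p x de rho lam t)
    (L : Submodule (ZMod p) (E → ZMod p)) {T : Finset E}
    (hT : ∀ S : Finset E, Ps (rho ^ 2 * (1 + lam)) t lam (dL L) T ≤
      Ps (rho ^ 2 * (1 + lam)) t lam (dL L) S)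
    {e : E} {X : Finset E} (hX : X ∈ circs (dL L) T e) :
    ∑ h ∈ (Iset L T e).filter (fun h => X ⊆ supp h), x ^ (supp h).card ≤
      (x * rho ^ 4) ^ X.card := by
  have hl : 0 < lam := hP.lam0
  have hx : 0 < x := hP.x0
  have hr : 1 < rho := hP.rho1
  have hr0 : 0 < rho := by linarith
  obtain ⟨ht1, ht0⟩ := total_t_pos (Fact.out : p.Prime) hP
  have hs : 0 < rho ^ 2 * (1 + lam) := by positivity
  have hsb : 0 < rho ^ 4 * (1 + lam) := by positivity
  obtain ⟨hcX, heX⟩ := mem_circs.1 hX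
  obtain ⟨Z, hZ1, hZ2, hZ3⟩ := exists_clos (rho ^ 4 * (1 + lam)) t lam (dL L) (T ∪ X)
  have hTZ : T ⊆ Z := subset_union_left.trans hZ1
  have hXZ : X ⊆ Z := subset_union_right.trans hZ1
  have hTg : Good (rho ^ 4 * (1 + lam)) t lam (dL L) T := by
    have h := min_good hs ht0 hl hT (one_le_pow₀ hr.le : 1 ≤ rho ^ 2)
    have h' : rho ^ 2 * (1 + lam) * rho ^ 2 = rho ^ 4 * (1 + lam) := by ring
    rwa [h'] at h
  have hmain := main_ind hP L hT (Finset.Subset.refl T) hTZ hTg hZ2
  have hPT : 0 < Ps (rho ^ 4 * (1 + lam)) t lam (dL L) T := total_Ps_pos hsb ht0 hl _ _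
  rw [Finset.sdiff_self, Finset.card_empty, pow_zero, one_mul] at hmain
  have hun := Ps_union (nul_dL L) (q := rho ^ 4) (by positivity) hl ht1 hcX.1
  have hchain : (∑ h ∈ Wset L T T Z, x ^ (supp h \ Z).card) *
      Ps (rho ^ 4 * (1 + lam)) t lam (dL L) T ≤
      (rho ^ 4) ^ X.card * Ps (rho ^ 4 * (1 + lam)) t lam (dL L) T :=
    hmain.trans (hZ3.trans hun)
  have hW : ∑ h ∈ Wset L T T Z, x ^ (supp h \ Z).card ≤ (rho ^ 4) ^ X.card :=
    le_of_mul_le_mul_right hchain hPT
  have hsub : (Iset L T e).filter (fun h => X ⊆ supp h) ⊆ Wset L T T Z := by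
    intro h hh
    rw [Finset.mem_filter] at hh
    obtain ⟨h1, h2⟩ := hh
    unfold Iset at h1
    rw [Finset.mem_filter] at h1
    unfold Wset
    rw [Finset.mem_filter]
    exact ⟨Finset.mem_univ _, h1.2.1, ⟨e, hXZ heX, h1.2.2⟩, fun A _ _ hA => hA⟩
  calc ∑ h ∈ (Iset L T e).filter (fun h => X ⊆ supp h), x ^ (supp h).card
      ≤ ∑ h ∈ (Iset L T e).filter (fun h => X ⊆ supp h),
          x ^ X.card * x ^ (supp h \ Z).card := by
        refine Finset.sum_le_sum ?_
        intro h hh
        rw [Finset.mem_filter] at hh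
        have hXs : X ⊆ supp h := hh.2
        have hcard : X.card + (supp h \ Z).card ≤ (supp h).card := by
          have hdis : Disjoint X (supp h \ Z) := by
            rw [Finset.disjoint_left]
            intro a ha ha'
            exact (Finset.mem_sdiff.1 ha').2 (hXZ ha)
          rw [← Finset.card_union_of_disjoint hdis]
          exact Finset.card_le_card (Finset.union_subset hXs Finset.sdiff_subset)
        rw [← pow_add]
        exact pow_le_pow_of_le_one hx.le hP.x1.le hcard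
    _ = x ^ X.card * ∑ h ∈ (Iset L T e).filter (fun h => X ⊆ supp h),
          x ^ (supp h \ Z).card := by rw [Finset.mul_sum]
    _ ≤ x ^ X.card * ∑ h ∈ Wset L T T Z, x ^ (supp h \ Z).card := by
        refine mul_le_mul_of_nonneg_left ?_ (by positivity)
        exact Finset.sum_le_sum_of_subset_of_nonneg hsub (fun h _ _ => by positivity)
    _ ≤ x ^ X.card * (rho ^ 4) ^ X.card :=
        mul_le_mul_of_nonneg_left hW (by positivity)
    _ = (x * rho ^ 4) ^ X.card := by rw [mul_pow]

/-- For every coordinate `e ∉ T` the weighted number of irreducible words through `e` is at most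
`de`. Proof: for `h ∈ Iset L T e` choose a circuit `X` of `M / T` with `e ∈ X ⊆ supp h`
(`exists_circ_through`). For a circuit `X` through `e` let `Z` be the closure of `T ∪ X`
(`exists_clos`). All `h` with this `X` are in `Wset L T T Z`, and
`x^|supp h| ≤ x^|X| x^|supp h \ Z|` (`X ⊆ Z`, `X` disjoint from... `|supp h| ≥ |X| + |supp h \ Z|`). By
`main_ind` (with `Z' = T`, good by `min_good`), `exists_clos` and `Ps_union`
`∑_h x^|supp h| * P T ≤ ∑_X x^|X| * P (T ∪ X) ≤ ∑_X (x rho^4)^|X| * P T`; divide by `P T > 0` and use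
`good_sum_le` (`x rho^4 ≤ b⁻¹` because `b ≥ 1` and `Par.zb`) and `Par.k3`. -/
theorem total {E : Type*} [Fintype E] [DecidableEq E] {p : ℕ} [Fact p.Prime]
    {x de rho lam t : ℝ} (hP : Par p x de rho lam t)
    (L : Submodule (ZMod p) (E → ZMod p)) {T : Finset E}
    (hT : ∀ S : Finset E, Ps (rho ^ 2 * (1 + lam)) t lam (dL L) T ≤
      Ps (rho ^ 2 * (1 + lam)) t lam (dL L) S)
    {e : E} (he : e ∉ T) :
    ∑ h ∈ Iset L T e, x ^ (supp h).card ≤ de := by
  classical
  have hl : 0 < lam := hP.lam0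
  have hx : 0 < x := hP.x0
  have hr : 1 < rho := hP.rho1
  have hr0 : 0 < rho := by linarith
  obtain ⟨ht1, ht0⟩ := total_t_pos (Fact.out : p.Prime) hP
  have hs : 0 < rho ^ 2 * (1 + lam) := by positivity
  have hsb : 0 < rho ^ 4 * (1 + lam) := by positivity
  have hTg : Good (rho ^ 4 * (1 + lam)) t lam (dL L) T := by
    have h := min_good hs ht0 hl hT (one_le_pow₀ hr.le : 1 ≤ rho ^ 2)
    have h' : rho ^ 2 * (1 + lam) * rho ^ 2 = rho ^ 4 * (1 + lam) := by ring
    rwa [h'] at h
  calc ∑ h ∈ Iset L T e, x ^ (supp h).card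
      ≤ ∑ h ∈ Iset L T e, ∑ X ∈ circs (dL L) T e,
          (if X ⊆ supp h then x ^ (supp h).card else 0) := by
        refine Finset.sum_le_sum ?_
        intro h hh
        unfold Iset at hh
        rw [Finset.mem_filter] at hh
        obtain ⟨X, hX1, hX2, hX3⟩ := exists_circ_through L hh.2.1.1 hh.2.2
        have hmem : X ∈ circs (dL L) T e := mem_circs.2 ⟨hX1, hX2⟩
        have hle := Finset.single_le_sum
          (f := fun X => (if X ⊆ supp h then x ^ (supp h).card else (0 : ℝ)))
          (s := circs (dL L) T e) (fun Y _ => by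
            show (0 : ℝ) ≤ (if Y ⊆ supp h then x ^ (supp h).card else (0 : ℝ))
            split_ifs
            · positivity
            · exact le_refl _) hmem
        simpa [hX3] using hle
    _ = ∑ X ∈ circs (dL L) T e, ∑ h ∈ Iset L T e,
          (if X ⊆ supp h then x ^ (supp h).card else 0) := Finset.sum_comm
    _ ≤ ∑ X ∈ circs (dL L) T e, (x * rho ^ 4) ^ X.card := by
        refine Finset.sum_le_sum ?_
        intro X hX
        rw [← Finset.sum_filter]
        exact total_one hP L hT hX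
    _ ≤ lam / t := good_sum_le (nul_dL L) hl ht0 hsb hTg he (by positivity) (total_weight hP)
    _ ≤ de := hP.k3

end FB9
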