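import Pool.Agent.W_fb9763_h19.Defs

set_option autoImplicit false

namespace FB9

open Finset

/-- `F` is positive: `W = ∅` contributes `1` and all other terms are positive. -/
theorem F_pos {E : Type*} [Fintype E] [DecidableEq E] {lam : ℝ} (hlam : 0 < lam)
    (d : Finset E → ℕ) (S : Finset E) : 0 < F lam d S := by
  unfold F
  refine Finset.sum_pos (fun W _ => pow_pos hlam _) ⟨∅, ?_⟩
  rw [Finset.mem_filter, Finset.mem_powerset, Finset.union_empty]
  exact ⟨Finset.empty_subset _, rfl⟩

/-- One element, first case. If `e ∉ S` and `d (S ∪ {e}) = d S` then for every `W` counted in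
`F (insert e S)` (so `e ∉ W`, `d (insert e S ∪ W) = d (insert e S) = d S`) both `W` and
`insert e W` are counted in `F S` (monotonicity of `d`), hence `F (insert e S) * (1+lam) ≤ F S`. -/
theorem F_insert_of_eq {E : Type*} [Fintype E] [DecidableEq E] {d : Finset E → ℕ} (hd : Nul d)
    {lam : ℝ} (hlam : 0 < lam) {S : Finset E} {e : E} (he : e ∉ S)
    (h : d (insert e S) = d S) : F lam d (insert e S) * (1 + lam) ≤ F lam d S := by
  unfold F
  set A := ((insert e S)ᶜ).powerset.filter (fun W => d (insert e S ∪ W) = d (insert e S)) with hA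
  have hAm : ∀ W ∈ A, e ∉ W ∧ (∀ x ∈ W, x ∉ S) ∧ d (insert e S ∪ W) = d S := by
    intro W hW
    rw [hA, Finset.mem_filter, Finset.mem_powerset] at hW
    refine ⟨fun heW => ?_, fun x hx hxS => ?_, hW.2.trans h⟩
    · have := hW.1 heW
      rw [Finset.mem_compl] at this
      exact this (Finset.mem_insert_self _ _)
    · have := hW.1 hx
      rw [Finset.mem_compl] at this
      exact this (Finset.mem_insert_of_mem hxS)
  have hinj : Set.InjOn (fun W : Finset E => insert e W) (A : Set (Finset E)) := by
    intro W hW W' hW' hWW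
    have h1 := (hAm W hW).1
    have h2 := (hAm W' hW').1
    have h3 := congrArg (fun T : Finset E => T.erase e) hWW
    simp only at h3
    rwa [Finset.erase_insert h1, Finset.erase_insert h2] at h3
  have hdisj : Disjoint A (A.image (fun W => insert e W)) := by
    rw [Finset.disjoint_left]
    intro W hW hW'
    obtain ⟨W', _, rfl⟩ := Finset.mem_image.1 hW'
    exact (hAm _ hW).1 (Finset.mem_insert_self _ _)
  have hsum : (∑ W ∈ A, lam ^ W.card) * (1 + lam) =
      ∑ W ∈ A ∪ A.image (fun W => insert e W), lam ^ W.card := by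
    rw [Finset.sum_union hdisj, Finset.sum_image hinj, mul_add, mul_one, Finset.sum_mul]
    congr 1
    refine Finset.sum_congr rfl fun W hW => ?_
    rw [Finset.card_insert_of_notMem (hAm W hW).1, pow_succ]
  rw [hsum]
  refine Finset.sum_le_sum_of_subset_of_nonneg ?_ fun W _ _ => (pow_pos hlam _).le
  intro W hW
  rw [Finset.mem_filter, Finset.mem_powerset]
  rcases Finset.mem_union.1 hW with hW | hW
  · obtain ⟨h1, h2, h3⟩ := hAm W hW
    refine ⟨fun x hx => Finset.mem_compl.2 (h2 x hx), le_antisymm ?_ ?_⟩
    · rw [← h3]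
      exact hd.mono _ _ (Finset.union_subset_union_left (Finset.subset_insert _ _))
    · exact hd.mono _ _ Finset.subset_union_left
  · obtain ⟨W', hW', rfl⟩ := Finset.mem_image.1 hW
    obtain ⟨h1, h2, h3⟩ := hAm W' hW'
    refine ⟨fun x hx => Finset.mem_compl.2 ?_, ?_⟩
    · rcases Finset.mem_insert.1 hx with rfl | hx
      · exact he
      · exact h2 x hx
    · have : S ∪ insert e W' = insert e S ∪ W' := by
        ext x
        simp only [Finset.mem_union, Finset.mem_insert]
        tauto
      rw [this]
      exact h3

/-- One element, second case. If `e ∉ S` and `d (insert e S) = d S + 1` then every `W` counted in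
`F (insert e S)` is counted in `F S`: supermodularity for `insert e S` and `S ∪ W` gives
`d S + 1 + d (S ∪ W) ≤ d (insert e S ∪ W) + d S = d S + 1 + d S`. -/
theorem F_insert_of_succ {E : Type*} [Fintype E] [DecidableEq E] {d : Finset E → ℕ} (hd : Nul d)
    {lam : ℝ} (hlam : 0 < lam) {S : Finset E} {e : E} (he : e ∉ S)
    (h : d (insert e S) = d S + 1) : F lam d (insert e S) ≤ F lam d S := by
  unfold F
  refine Finset.sum_le_sum_of_subset_of_nonneg ?_ fun W _ _ => (pow_pos hlam _).le
  intro W hW
  rw [Finset.mem_filter, Finset.mem_powerset] at hW ⊢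
  have heW : e ∉ W := fun heW => by
    have := hW.1 heW
    rw [Finset.mem_compl] at this
    exact this (Finset.mem_insert_self _ _)
  refine ⟨fun x hx => Finset.mem_compl.2 fun hxS => ?_, le_antisymm ?_ ?_⟩
  · have := hW.1 hx
    rw [Finset.mem_compl] at this
    exact this (Finset.mem_insert_of_mem hxS)
  · have h1 := hd.super (insert e S) (S ∪ W)
    have h2 : insert e S ∪ (S ∪ W) = insert e S ∪ W := by
      ext x
      simp only [Finset.mem_union, Finset.mem_insert]
      tauto
    have h3 : insert e S ∩ (S ∪ W) = S := by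
      ext x
      simp only [Finset.mem_union, Finset.mem_insert, Finset.mem_inter]
      constructor
      · rintro ⟨h4 | h4, h5⟩
        · subst h4
          rcases h5 with h5 | h5
          · exact h5
          · exact (heW h5).elim
        · exact h4
      · intro h4
        exact ⟨Or.inr h4, Or.inl h4⟩
    rw [h2, h3, hW.2, h] at h1
    omega
  · exact hd.mono _ _ Finset.subset_union_left

/-- Induction over the elements of `R` with the two lemmas above. -/
theorem F_union {E : Type*} [Fintype E] [DecidableEq E] {d : Finset E → ℕ} (hd : Nul d)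
    {lam : ℝ} (hlam : 0 < lam) (S R : Finset E) (hSR : Disjoint R S) :
    F lam d (S ∪ R) * (1 + lam) ^ R.card ≤ (1 + lam) ^ (d (S ∪ R) - d S) * F lam d S := by
  induction R using Finset.induction_on with
  | empty => simp
  | insert e R heR ih =>
    rw [Finset.disjoint_insert_left] at hSR
    have ih := ih hSR.2
    have heS : e ∉ S ∪ R := by
      rw [Finset.mem_union]
      rintro (h | h)
      · exact hSR.1 h
      · exact heR h
    have e1 : S ∪ insert e R = insert e (S ∪ R) := by
      ext x
      simp only [Finset.mem_union, Finset.mem_insert]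
      tauto
    have hpos : (0 : ℝ) < 1 + lam := by linarith
    have hmono : d S ≤ d (S ∪ R) := hd.mono _ _ Finset.subset_union_left
    have h1 : d (S ∪ R) ≤ d (insert e (S ∪ R)) := hd.mono _ _ (Finset.subset_insert _ _)
    have h2 : d (insert e (S ∪ R)) ≤ d (S ∪ R) + 1 := hd.insert_le _ _
    rw [e1, Finset.card_insert_of_notMem heR]
    rcases Nat.lt_or_ge (d (S ∪ R)) (d (insert e (S ∪ R))) with h3 | h3
    · have h4 : d (insert e (S ∪ R)) = d (S ∪ R) + 1 := by omega
      have h5 := F_insert_of_succ hd hlam heS h4
      have h6 : d (insert e (S ∪ R)) - d S = (d (S ∪ R) - d S) + 1 := by omega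
      rw [h6, pow_succ, pow_succ]
      calc F lam d (insert e (S ∪ R)) * ((1 + lam) ^ R.card * (1 + lam))
          ≤ F lam d (S ∪ R) * ((1 + lam) ^ R.card * (1 + lam)) := by
            refine mul_le_mul_of_nonneg_right h5 ?_
            positivity
        _ = (F lam d (S ∪ R) * (1 + lam) ^ R.card) * (1 + lam) := by ring
        _ ≤ ((1 + lam) ^ (d (S ∪ R) - d S) * F lam d S) * (1 + lam) :=
            mul_le_mul_of_nonneg_right ih hpos.le
        _ = (1 + lam) ^ (d (S ∪ R) - d S) * (1 + lam) * F lam d S := by ring
    · have h4 : d (insert e (S ∪ R)) = d (S ∪ R) := by omega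
      have h5 := F_insert_of_eq hd hlam heS h4
      rw [h4, pow_succ]
      calc F lam d (insert e (S ∪ R)) * ((1 + lam) ^ R.card * (1 + lam))
          = (F lam d (insert e (S ∪ R)) * (1 + lam)) * (1 + lam) ^ R.card := by ring
        _ ≤ F lam d (S ∪ R) * (1 + lam) ^ R.card := by
            refine mul_le_mul_of_nonneg_right h5 ?_
            positivity
        _ ≤ (1 + lam) ^ (d (S ∪ R) - d S) * F lam d S := ih

end FB9
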